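import Pool.Agent.Lib.DigitChanges.Basic

/-!
# The relation modulo an inert prime

`G` is an integer power series, `F = (1 - bX) G` and `T = D E - F G`.  If `p = 2 m + 1` is a prime
not dividing `b` with `D^m = -1` mod `p`, then `γ_R = b^{-R} G_R` satisfies
`γ_R = - γ_{⌊R/p⌋}` for all `R` outside of a sparse set.
-/

open Finset PowerSeries

namespace Pool.Agent.DigitChanges

/-- the sparse error term -/
noncomputable def Vs (D : ℤ) (T F : PowerSeries ℤ) (m : ℕ) : PowerSeries ℤ :=
  T * F * ∑ j ∈ range m, C D ^ j * (F ^ 2) ^ (m - 1 - j)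

lemma sc_sum {ι : Type*} (s : Finset ι) (f : ι → PowerSeries ℤ) (n : ℕ) :
    sc (∑ i ∈ s, f i) n ≤ ∑ i ∈ s, sc (f i) n := by
  classical
  induction s using Finset.induction_on with
  | empty => simp [sc]
  | insert a s ha ih =>
    rw [sum_insert ha, sum_insert ha]
    exact (sc_add _ _ _).trans (Nat.add_le_add_left ih _)

lemma sc_one_le (n : ℕ) : sc (1 : PowerSeries ℤ) n ≤ 1 := by
  unfold sc
  refine (card_le_card (t := {0}) ?_).trans (by simp)
  intro k hk
  simp only [mem_filter, mem_range, coeff_one, mem_singleton] at hk ⊢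
  by_contra h
  exact hk.2 (if_neg h)

lemma sc_pow (f : PowerSeries ℤ) (k n : ℕ) : sc (f ^ k) n ≤ sc f n ^ k := by
  induction k with
  | zero => simpa using sc_one_le n
  | succ k ih =>
    rw [pow_succ, pow_succ]
    exact (sc_mul _ _ _).trans (Nat.mul_le_mul_right _ ih)

lemma sc_Vs (D : ℤ) (T F : PowerSeries ℤ) (m N : ℕ) (hm : 1 ≤ m) (hF : 1 ≤ sc F N) :
    sc (Vs D T F m) N ≤ m * (sc T N * sc F N ^ (2 * m - 1)) := by
  unfold Vs
  have h1 : sc (∑ j ∈ range m, C D ^ j * (F ^ 2) ^ (m - 1 - j)) N ≤ m * sc F N ^ (2 * m - 2) := by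
    refine (sc_sum _ _ _).trans ?_
    rw [← smul_eq_mul, ← card_range m, card_range m]
    refine (sum_le_card_nsmul (range m) _ (sc F N ^ (2 * m - 2)) ?_).trans (by simp)
    intro j hj
    rw [← map_pow, ← pow_mul]
    refine (sc_C_mul _ _ _).trans ((sc_pow _ _ _).trans ?_)
    exact Nat.pow_le_pow_right hF (by omega)
  calc sc (T * F * ∑ j ∈ range m, C D ^ j * (F ^ 2) ^ (m - 1 - j)) N
      ≤ (sc T N * sc F N) * (m * sc F N ^ (2 * m - 2)) :=
        (sc_mul _ _ _).trans (Nat.mul_le_mul (sc_mul _ _ _) h1)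
    _ = m * (sc T N * sc F N ^ (2 * m - 1)) := by
        obtain ⟨k, rfl⟩ : ∃ k, m = k + 1 := ⟨m - 1, by omega⟩
        rw [show 2 * (k + 1) - 1 = 2 * k + 1 by omega, show 2 * (k + 1) - 2 = 2 * k by omega]
        ring

lemma Vs_eq (b D : ℤ) (T F G : PowerSeries ℤ) (hF : F = K b * G) (hT : T = C D * E b - F * G)
    (m : ℕ) : Vs D T F m = E b * (C D ^ m * F - F ^ (2 * m + 1)) := by
  have h1 : C D - F ^ 2 = K b * T := by
    rw [hT, mul_sub, mul_left_comm, K_mul_E, mul_one, mul_left_comm, ← hF, sq]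
  have h2 := geom_sum₂_mul (C D : PowerSeries ℤ) (F ^ 2) m
  rw [h1] at h2
  have h3 : E b * (C D ^ m * F - F ^ (2 * m + 1)) = E b * F * (C D ^ m - (F ^ 2) ^ m) := by
    rw [pow_succ, pow_mul]; ring
  rw [h3, ← h2, Vs]
  calc _ = (K b * E b) * (T * F * ∑ j ∈ range m, C D ^ j * (F ^ 2) ^ (m - 1 - j)) := by
        rw [K_mul_E, one_mul]
    _ = _ := by ring

/-- `E(X) F(X^p)` has coefficients `b^{R mod p} G_{⌊R/p⌋}` over `ZMod p`. -/
lemma coeff_E_mul_expand (p : ℕ) [hp : Fact p.Prime] (b : ZMod p) (F G : PowerSeries (ZMod p))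
    (hF : F = K b * G) (R : ℕ) :
    coeff R (E b * expand p hp.out.ne_zero F) = b ^ (R % p) * coeff (R / p) G := by
  set H := E b * expand p hp.out.ne_zero F with hH
  have hKH : K b * H = expand p hp.out.ne_zero F := by
    rw [hH, ← mul_assoc, K_mul_E, one_mul]
  have hpp := hp.out.pos
  induction R with
  | zero =>
    have := congrArg (coeff 0) hKH
    rw [coeff_K_mul_zero, coeff_expand, if_pos (dvd_zero p), Nat.zero_div, hF,
      coeff_K_mul_zero] at this
    rw [this]; simp
  | succ R ih =>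
    have h1 := congrArg (coeff (R + 1)) hKH
    rw [coeff_K_mul_succ, coeff_expand] at h1
    by_cases hd : p ∣ R + 1
    · obtain ⟨q, hq⟩ := hd
      obtain ⟨q, rfl⟩ : ∃ k, q = k + 1 := ⟨q - 1, by
        rcases q with _ | q
        · simp at hq
        · simp⟩
      have e1 : R = p * q + (p - 1) := by
        have : p * (q + 1) = p * q + p := by ring
        omega
      have e2 : (R + 1) / p = q + 1 := by rw [hq, Nat.mul_div_cancel_left _ hpp]
      have e3 : R / p = q := by
        rw [e1, Nat.mul_add_div hpp, Nat.div_eq_of_lt (by omega), add_zero]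
      have e4 : R % p = p - 1 := by
        rw [e1, Nat.mul_add_mod, Nat.mod_eq_of_lt (by omega)]
      have e5 : (R + 1) % p = 0 := by rw [hq]; simp
      rw [if_pos ⟨q + 1, hq⟩, e2, hF, coeff_K_mul_succ, ih, e3, e4, ← mul_assoc, ← pow_succ',
        Nat.sub_add_cancel hpp, ZMod.pow_card] at h1
      rw [e5, e2, pow_zero, one_mul]
      linear_combination h1
    · have e2 : (R + 1) / p = R / p := by
        rw [Nat.succ_div_of_not_dvd hd]
      have e3 : (R + 1) % p = R % p + 1 := by
        have h5 := Nat.div_add_mod (R + 1) p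
        have h6 := Nat.div_add_mod R p
        rw [e2] at h5
        omega
      rw [if_neg hd, ih] at h1
      rw [e2, e3, pow_succ]
      linear_combination h1

/-- `γ_R = b^{-R} G_R` -/
noncomputable def gam (p : ℕ) (b : ℤ) (G : PowerSeries ℤ) (R : ℕ) : ZMod p :=
  ((b : ZMod p) ^ R)⁻¹ * ((coeff R G : ℤ) : ZMod p)

section

variable (p : ℕ) [hp : Fact p.Prime] (b D : ℤ) (T F G : PowerSeries ℤ) (m : ℕ)

lemma gam_eq (hpm : p = 2 * m + 1) (hb : (b : ZMod p) ≠ 0) (hD : (D : ZMod p) ^ m = -1)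
    (hF : F = K b * G) (hT : T = C D * E b - F * G) (R : ℕ) (hR : coeff R (Vs D T F m) = 0) :
    gam p b G R = - gam p b G (R / p) := by
  have h1 := Vs_eq b D T F G hF hT m
  have h2 := congrArg (fun f => coeff R (map (Int.castRingHom (ZMod p)) f)) h1
  have hK : map (Int.castRingHom (ZMod p)) (K b) = K (b : ZMod p) := by
    simp [K, map_sub, map_mul, map_X]
  have hE : map (Int.castRingHom (ZMod p)) (E b) = E (b : ZMod p) := by
    ext n; simp [E, coeff_map]
  set F' := map (Int.castRingHom (ZMod p)) F with hF'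
  set G' := map (Int.castRingHom (ZMod p)) G with hG'
  have hFG : F' = K (b : ZMod p) * G' := by
    rw [hF', hF, map_mul, hK]
  simp only [coeff_map, hR, map_zero, map_mul, map_sub, map_pow, map_C] at h2
  rw [hE, ← hF', ← hpm, ← expand_card, eq_intCast, ← map_pow, hD] at h2
  have h3 : E (b : ZMod p) * ((C (-1 : ZMod p)) * F' - expand p hp.out.ne_zero F') =
      -G' - E (b : ZMod p) * expand p hp.out.ne_zero F' := by
    have : E (b : ZMod p) * F' = G' := by
      rw [hFG, ← mul_assoc, mul_comm (E _), K_mul_E, one_mul]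
    have h4 : (C (-1 : ZMod p) : PowerSeries (ZMod p)) = -1 := by simp
    rw [h4]
    linear_combination (-1 : PowerSeries (ZMod p)) * this
  rw [h3, map_sub, map_neg, coeff_E_mul_expand p (b : ZMod p) F' G' hFG R, hG', coeff_map,
    coeff_map, eq_intCast, eq_intCast] at h2
  unfold gam
  have hbR : (b : ZMod p) ^ R = (b : ZMod p) ^ (R / p) * (b : ZMod p) ^ (R % p) := by
    conv_lhs => rw [← Nat.div_add_mod R p, pow_add, pow_mul, ZMod.pow_card]
  have hb1 : (b : ZMod p) ^ (R / p) ≠ 0 := pow_ne_zero _ hb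
  have hb2 : (b : ZMod p) ^ (R % p) ≠ 0 := pow_ne_zero _ hb
  rw [hbR]
  field_simp
  linear_combination h2

lemma gam_succ (hb : (b : ZMod p) ≠ 0) (hF : F = K b * G) (R : ℕ)
    (h : coeff (R + 1) F = 0) : gam p b G (R + 1) = gam p b G R := by
  have h1 : coeff (R + 1) G = b * coeff R G := by
    rw [hF, coeff_K_mul_succ] at h
    linarith
  unfold gam
  rw [h1, pow_succ]
  push_cast
  have hb1 : (b : ZMod p) ^ R ≠ 0 := pow_ne_zero _ hb
  field_simp

lemma gam_ne_zero_count (hb : (b : ZMod p) ≠ 0) (hD : (D : ZMod p) ≠ 0)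
    (hT : T = C D * E b - F * G) (n : ℕ) :
    n ≤ sc T n + sc F n * #{R ∈ range n | gam p b G R ≠ 0} := by
  have key : ∀ R, coeff R T = 0 → ∃ i j, i + j = R ∧ coeff i F ≠ 0 ∧ gam p b G j ≠ 0 := by
    intro R hR
    have h1 : D * b ^ R = ∑ q ∈ antidiagonal R, coeff q.1 F * coeff q.2 G := by
      rw [hT, map_sub, coeff_C_mul, coeff_E, coeff_mul] at hR
      linarith
    have h2 : ((∑ q ∈ antidiagonal R, coeff q.1 F * coeff q.2 G : ℤ) : ZMod p) ≠ 0 := by
      rw [← h1]
      push_cast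
      exact mul_ne_zero hD (pow_ne_zero _ hb)
    rw [Int.cast_sum] at h2
    obtain ⟨⟨i, j⟩, hij, hne⟩ := exists_ne_zero_of_sum_ne_zero h2
    rw [HasAntidiagonal.mem_antidiagonal] at hij
    rw [Int.cast_mul] at hne
    refine ⟨i, j, hij, ?_, ?_⟩
    · intro h
      simp only at hne
      rw [h] at hne
      simp at hne
    · unfold gam
      exact mul_ne_zero (inv_ne_zero (pow_ne_zero _ hb)) (right_ne_zero_of_mul hne)
  have hsub : range n ⊆ {R ∈ range n | coeff R T ≠ 0} ∪
      (({i ∈ range n | coeff i F ≠ 0} ×ˢ {j ∈ range n | gam p b G j ≠ 0}).image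
        (fun q => q.1 + q.2)) := by
    intro R hR
    simp only [mem_range] at hR
    simp only [mem_union, mem_filter, mem_range, mem_image, mem_product, Prod.exists]
    by_cases h : coeff R T = 0
    · right
      obtain ⟨i, j, hij, hi, hj⟩ := key R h
      exact ⟨i, j, ⟨⟨by omega, hi⟩, by omega, hj⟩, hij⟩
    · left
      exact ⟨hR, h⟩
  have h := card_le_card hsub
  rw [card_range] at h
  refine h.trans ((card_union_le _ _).trans ?_)
  unfold sc
  refine Nat.add_le_add_left (card_image_le.trans ?_) _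
  rw [card_product]

end

end Pool.Agent.DigitChanges
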