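import Mathlib

/-!
# Geometric progressions with different prime ratios rarely meet
-/

open Finset

namespace Pool.Agent.DigitChanges

/-- auxiliary: `(B + 1) u x ≤ B (u + Δ) (x + Δ)` is impossible. -/
lemma aux_ratio (A B u x w y k Δ H : ℕ) (hku : k ≤ u) (hkx : k ≤ x) (hw : w ≤ u + Δ)
    (hy : y ≤ x + Δ) (hΔ : 4 * H * Δ < k) (hB : B ≤ H) (hB0 : 0 < B)
    (h : A * u * x < B * y * w) : A ≤ B := by
  by_contra hcon
  push Not at hcon
  have h1 : (B + 1) * u * x ≤ A * u * x :=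
    Nat.mul_le_mul_right _ (Nat.mul_le_mul_right _ hcon)
  have h2 : B * y * w ≤ B * (x + Δ) * (u + Δ) :=
    Nat.mul_le_mul (Nat.mul_le_mul_left _ hy) hw
  have h3 : (B + 1) * u * x < B * (x + Δ) * (u + Δ) := lt_of_le_of_lt h1 (lt_of_lt_of_le h h2)
  have e1 : (B + 1) * u * x = B * x * u + u * x := by ring
  have e2 : B * (x + Δ) * (u + Δ) = B * x * u + (B * Δ * u + B * Δ * x + B * Δ * Δ) := by ring
  rw [e1, e2] at h3
  have h4 : u * x < B * Δ * u + B * Δ * x + B * Δ * Δ := by omega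
  have hBΔ : 4 * (B * Δ) ≤ 4 * H * Δ := by
    rw [mul_assoc 4 H Δ]
    exact Nat.mul_le_mul_left _ (Nat.mul_le_mul_right _ hB)
  have h5 : 4 * (B * Δ) ≤ x := by omega
  have h6 : 4 * (B * Δ) ≤ u := by omega
  have h7 : Δ ≤ u := by
    have : Δ ≤ B * Δ := Nat.le_mul_of_pos_left _ hB0
    omega
  have h8 : 4 * (B * Δ) * u ≤ x * u := Nat.mul_le_mul_right _ h5
  have h9 : 4 * (B * Δ) * x ≤ u * x := Nat.mul_le_mul_right _ h6
  have h10 : 4 * (B * Δ) * Δ ≤ x * u := Nat.mul_le_mul h5 h7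
  have h11 : 0 < u * x := Nat.mul_pos (by omega) (by omega)
  have e3 : x * u = u * x := mul_comm _ _
  have e4 : 4 * (B * Δ) * u = 4 * (B * Δ * u) := by ring
  have e5 : 4 * (B * Δ) * x = 4 * (B * Δ * x) := by ring
  have e6 : 4 * (B * Δ) * Δ = 4 * (B * Δ * Δ) := by ring
  omega

lemma no_double (p q : ℕ) (hp : p.Prime) (hq : q.Prime) (hpq : p ≠ q) (hp3 : 3 ≤ p)
    (u w x y k Δ H : ℕ) (hku : k ≤ u) (hkx : k ≤ x) (hw : w ≤ u + Δ)
    (hy : y ≤ x + Δ) (hΔ : 4 * H * Δ < k) (i i' j j' s s' : ℕ) (hii : i' < i)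
    (hpi : p ^ i ≤ H) (hqj : q ^ j ≤ H) (hqj' : q ^ j' ≤ H)
    (h1 : p ^ i * u < s) (h2 : s < p ^ i * w) (h3 : p ^ i' * u < s') (h4 : s' < p ^ i' * w)
    (h5 : q ^ j * x < s) (h6 : s < q ^ j * y) (h7 : q ^ j' * x < s') (h8 : s' < q ^ j' * y) :
    False := by
  have hs' : 0 < s' := by omega
  -- `j' < j`
  have hjj : j' < j := by
    by_contra hcon
    push Not at hcon
    set A := p ^ i' with hA
    set B := q ^ j' with hB
    have hA0 : 0 < A := pow_pos hp.pos _
    have hB1 : q ^ j ≤ B := Nat.pow_le_pow_right hq.pos hcon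
    have e1 : 3 * A ≤ p ^ i := by
      calc 3 * A ≤ p * p ^ i' := Nat.mul_le_mul_right _ hp3
        _ = p ^ (i' + 1) := by rw [pow_succ, mul_comm]
        _ ≤ p ^ i := Nat.pow_le_pow_right hp.pos hii
    have e2 : 3 * A * u ≤ p ^ i * u := Nat.mul_le_mul_right _ e1
    have e3 : q ^ j * y ≤ B * (x + Δ) := Nat.mul_le_mul hB1 hy
    have e4 : A * w ≤ A * (u + Δ) := Nat.mul_le_mul_left _ hw
    have e5 : B * Δ ≤ H * Δ := Nat.mul_le_mul_right _ hqj'
    have e6 : 4 * H * Δ = 4 * (H * Δ) := by ring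
    have e7 : u ≤ A * u := Nat.le_mul_of_pos_left _ hA0
    have hH0 : 0 < H := lt_of_lt_of_le (pow_pos hp.pos i) hpi
    have e8 : Δ ≤ u := by
      have : Δ ≤ H * Δ := Nat.le_mul_of_pos_left _ hH0
      omega
    have e9 : A * Δ ≤ A * u := Nat.mul_le_mul_left _ e8
    have e10 : B * (x + Δ) = B * x + B * Δ := by ring
    have e11 : A * (u + Δ) = A * u + A * Δ := by ring
    have e12 : 3 * A * u = 3 * (A * u) := by ring
    omega
  obtain ⟨a, rfl⟩ : ∃ a, i = i' + (a + 1) := ⟨i - i' - 1, by omega⟩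
  obtain ⟨c, rfl⟩ : ∃ c, j = j' + (c + 1) := ⟨j - j' - 1, by omega⟩
  rw [pow_add] at h1 h2 h5 h6 hpi hqj
  set A := p ^ i'
  set B := q ^ j'
  set X := p ^ (a + 1) with hX
  set Y := q ^ (c + 1) with hY
  have hA0 : 0 < A := pow_pos hp.pos _
  have hB0 : 0 < B := pow_pos hq.pos _
  have hX0 : 0 < X := pow_pos hp.pos _
  have hY0 : 0 < Y := pow_pos hq.pos _
  have hXH : X ≤ H := le_trans (Nat.le_mul_of_pos_left _ hA0) hpi
  have hYH : Y ≤ H := le_trans (Nat.le_mul_of_pos_left _ hB0) hqj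
  have hu0 : 0 < u := by omega
  have hx0 : 0 < x := by omega
  have hw0 : 0 < w := by
    rcases Nat.eq_zero_or_pos w with h | h
    · rw [h] at h4; omega
    · exact h
  have hy0 : 0 < y := by
    rcases Nat.eq_zero_or_pos y with h | h
    · rw [h] at h8; omega
    · exact h
  -- `X s' u < s w`
  have g1 : X * s' * u < s * w := by
    calc X * s' * u = (X * u) * s' := by ring
      _ < (X * u) * (A * w) := Nat.mul_lt_mul_of_pos_left h4 (Nat.mul_pos hX0 hu0)
      _ = (A * X * u) * w := by ring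
      _ < s * w := Nat.mul_lt_mul_of_pos_right h1 hw0
  have g2 : s * x < Y * s' * y := by
    calc s * x < (B * Y * y) * x := Nat.mul_lt_mul_of_pos_right h6 hx0
      _ = (Y * y) * (B * x) := by ring
      _ < (Y * y) * s' := Nat.mul_lt_mul_of_pos_left h7 (Nat.mul_pos hY0 hy0)
      _ = Y * s' * y := by ring
  have g3 : Y * s' * x < s * y := by
    calc Y * s' * x = (Y * x) * s' := by ring
      _ < (Y * x) * (B * y) := Nat.mul_lt_mul_of_pos_left h8 (Nat.mul_pos hY0 hx0)
      _ = (B * Y * x) * y := by ring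
      _ < s * y := Nat.mul_lt_mul_of_pos_right h5 hy0
  have g4 : s * u < X * s' * w := by
    calc s * u < (A * X * w) * u := Nat.mul_lt_mul_of_pos_right h2 hu0
      _ = (X * w) * (A * u) := by ring
      _ < (X * w) * s' := Nat.mul_lt_mul_of_pos_left h3 (Nat.mul_pos hX0 hw0)
      _ = X * s' * w := by ring
  have g5 : X * u * x < Y * y * w := by
    have : s' * (X * u * x) < s' * (Y * y * w) := by
      calc s' * (X * u * x) = (X * s' * u) * x := by ring
        _ < (s * w) * x := Nat.mul_lt_mul_of_pos_right g1 hx0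
        _ = (s * x) * w := by ring
        _ < (Y * s' * y) * w := Nat.mul_lt_mul_of_pos_right g2 hw0
        _ = s' * (Y * y * w) := by ring
    exact Nat.lt_of_mul_lt_mul_left this
  have g6 : Y * x * u < X * w * y := by
    have : s' * (Y * x * u) < s' * (X * w * y) := by
      calc s' * (Y * x * u) = (Y * s' * x) * u := by ring
        _ < (s * y) * u := Nat.mul_lt_mul_of_pos_right g3 hu0
        _ = (s * u) * y := by ring
        _ < (X * s' * w) * y := Nat.mul_lt_mul_of_pos_right g4 hy0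
        _ = s' * (X * w * y) := by ring
    exact Nat.lt_of_mul_lt_mul_left this
  have g7 : X ≤ Y := aux_ratio X Y u x w y k Δ H hku hkx hw hy hΔ hYH hY0 g5
  have g8 : Y ≤ X := aux_ratio Y X x u y w k Δ H hkx hku hy hw hΔ hXH hX0 g6
  have g9 : X = Y := le_antisymm g7 g8
  have g10 : p ∣ q ^ (c + 1) := by
    rw [← hY, ← g9, hX]
    exact dvd_pow_self p (by omega)
  exact hpq ((Nat.prime_dvd_prime_iff_eq hp hq).1 (hp.dvd_of_dvd_pow g10))

/-- **Counting lemma.** -/
theorem many_changes (S P : Finset ℕ) (u w : ℕ → ℕ) (k Δ H n : ℕ)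
    (hP : ∀ p ∈ P, p.Prime) (hP3 : ∀ p ∈ P, 3 ≤ p)
    (hu : ∀ p ∈ P, k ≤ u p) (hw : ∀ p ∈ P, w p ≤ u p + Δ) (hΔ : 4 * H * Δ < k)
    (hn : ∀ p ∈ P, ∀ i < n, p ^ i ≤ H)
    (hs : ∀ p ∈ P, ∀ i < n, ∃ s ∈ S, p ^ i * u p < s ∧ s < p ^ i * w p) :
    #P * n ≤ #S + #P * #P := by
  classical
  choose! f hf using hs
  let Sp : ℕ → Finset ℕ := fun p => (range n).image (f p)
  have hmono : ∀ p ∈ P, ∀ i < n, ∀ j < n, i < j → f p i < f p j := by
    intro p hp i hi j hj hij
    have h1 := (hf p hp i hi).2.2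
    have h2 := (hf p hp j hj).2.1
    have hp0 := (hP p hp).pos
    have hH0 : 0 < H := lt_of_lt_of_le (pow_pos hp0 i) (hn p hp i hi)
    have hku := hu p hp
    have hwu := hw p hp
    have h3 : Δ ≤ u p := by
      have : Δ ≤ H * Δ := Nat.le_mul_of_pos_left _ hH0
      have e : 4 * H * Δ = 4 * (H * Δ) := by ring
      omega
    have h4 : w p ≤ p * u p := by
      have : 3 * u p ≤ p * u p := Nat.mul_le_mul_right _ (hP3 p hp)
      omega
    have h5 : p ^ i * w p ≤ p ^ j * u p := by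
      calc p ^ i * w p ≤ p ^ i * (p * u p) := Nat.mul_le_mul_left _ h4
        _ = p ^ (i + 1) * u p := by rw [pow_succ, mul_assoc]
        _ ≤ p ^ j * u p := Nat.mul_le_mul_right _ (Nat.pow_le_pow_right hp0 hij)
    omega
  have hinj : ∀ p ∈ P, Set.InjOn (f p) (range n) := by
    intro p hp i hi j hj hij
    simp only [mem_coe, mem_range] at hi hj
    rcases Nat.lt_trichotomy i j with h | h | h
    · have := hmono p hp i hi j hj h; omega
    · exact h
    · have := hmono p hp j hj i hi h; omega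
  have hcard : ∀ p ∈ P, #(Sp p) = n := by
    intro p hp
    have := card_image_of_injOn (hinj p hp)
    rw [card_range] at this
    exact this
  have hinter : ∀ p ∈ P, ∀ q ∈ P, p ≠ q → #(Sp p ∩ Sp q) ≤ 1 := by
    intro p hp q hq hpq
    rw [card_le_one]
    intro s hs s' hs'
    simp only [Sp, mem_inter, mem_image, mem_range] at hs hs'
    obtain ⟨⟨i, hi, hi2⟩, ⟨j, hj, hj2⟩⟩ := hs
    obtain ⟨⟨i', hi', hi2'⟩, ⟨j', hj', hj2'⟩⟩ := hs'
    have a1 := hf p hp i hi
    have a2 := hf p hp i' hi'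
    have a3 := hf q hq j hj
    have a4 := hf q hq j' hj'
    rw [hi2] at a1
    rw [hi2'] at a2
    rw [hj2] at a3
    rw [hj2'] at a4
    rcases Nat.lt_trichotomy i i' with h | h | h
    · exfalso
      exact no_double p q (hP p hp) (hP q hq) hpq (hP3 p hp) (u p) (w p) (u q) (w q) k Δ H
        (hu p hp) (hu q hq) (hw p hp) (hw q hq) hΔ i' i j' j s' s h
        (hn p hp i' hi') (hn q hq j' hj') (hn q hq j hj)
        a2.2.1 a2.2.2 a1.2.1 a1.2.2 a4.2.1 a4.2.2 a3.2.1 a3.2.2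
    · rw [← hi2, ← hi2', h]
    · exfalso
      exact no_double p q (hP p hp) (hP q hq) hpq (hP3 p hp) (u p) (w p) (u q) (w q) k Δ H
        (hu p hp) (hu q hq) (hw p hp) (hw q hq) hΔ i i' j j' s s' h
        (hn p hp i hi) (hn q hq j hj) (hn q hq j' hj')
        a1.2.1 a1.2.2 a2.2.1 a2.2.2 a3.2.1 a3.2.2 a4.2.1 a4.2.2
  -- induction on subsets of `P`
  have key : ∀ Q ⊆ P, #Q * n ≤ #(Q.biUnion Sp) + #Q * #Q := by
    intro Q
    induction Q using Finset.induction_on with
    | empty => intro _; simp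
    | insert p Q hpQ ih =>
      intro hsub
      have hpP : p ∈ P := hsub (mem_insert_self _ _)
      have hQP : Q ⊆ P := fun x hx => hsub (mem_insert_of_mem hx)
      have h1 := ih hQP
      rw [card_insert_of_notMem hpQ, biUnion_insert]
      have h2 := card_union_add_card_inter (Sp p) (Q.biUnion Sp)
      have h3 : #(Sp p ∩ Q.biUnion Sp) ≤ #Q := by
        rw [inter_biUnion]
        refine (card_biUnion_le_card_mul _ _ 1 ?_).trans (by simp)
        intro q hq
        refine hinter p hpP q (hQP hq) ?_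
        rintro rfl
        exact hpQ hq
      rw [hcard p hpP] at h2
      have e1 : (#Q + 1) * n = #Q * n + n := by ring
      have e2 : (#Q + 1) * (#Q + 1) = #Q * #Q + 2 * #Q + 1 := by ring
      omega
  have h1 := key P (Subset.refl _)
  have h2 : #(P.biUnion Sp) ≤ #S := by
    apply card_le_card
    intro s hs
    simp only [Sp, mem_biUnion, mem_image, mem_range] at hs
    obtain ⟨p, hp, i, hi, rfl⟩ := hs
    exact (hf p hp i hi).1
  omega

end Pool.Agent.DigitChanges
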