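import Mathlib

/-!
# Anti-self-similar functions have changes along a geometric progression

Let `γ : ℕ → ZMod p` satisfy `γ R = - γ (R / p)` for all `R ≤ N` outside of a small set `Z`, and
let `S` be the set of positions at which `γ` changes.  If `γ` does not vanish too often then there
are `u < w` close to each other such that `S` meets `(p^i u, p^i w)` for all `i` with `p^i w ≤ N`.
-/

open Finset

namespace Pool.Agent.DigitChanges

/-- all `R` with `R / p ∈ B` -/
def lift (p : ℕ) (B : Finset ℕ) : Finset ℕ := (B ×ˢ range p).image (fun q => p * q.1 + q.2)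

lemma mem_lift {p : ℕ} (hp : 0 < p) {B : Finset ℕ} {R : ℕ} : R ∈ lift p B ↔ R / p ∈ B := by
  unfold lift
  simp only [mem_image, mem_product, mem_range, Prod.exists]
  constructor
  · rintro ⟨a, r, ⟨ha, hr⟩, rfl⟩
    rw [Nat.mul_add_div hp, Nat.div_eq_of_lt hr, add_zero]
    exact ha
  · intro h
    exact ⟨R / p, R % p, ⟨h, Nat.mod_lt _ hp⟩, Nat.div_add_mod R p⟩

lemma card_lift {p : ℕ} (hp : 0 < p) (B : Finset ℕ) : #(lift p B) = p * #B := by
  unfold lift
  rw [card_image_of_injOn, card_product, card_range, mul_comm]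
  rintro ⟨a, r⟩ h1 ⟨a', r'⟩ h2 h
  simp only [coe_product, Set.mem_prod, mem_coe, mem_range] at h1 h2
  simp only at h
  have e1 : a = a' := by
    have := congrArg (· / p) h
    simp only [Nat.mul_add_div hp, Nat.div_eq_of_lt h1.2, Nat.div_eq_of_lt h2.2, add_zero] at this
    exact this
  subst e1
  have e2 : r = r' := by omega
  rw [e2]

section

variable {p : ℕ} [hp : Fact p.Prime] (γ : ℕ → ZMod p) (S Z : Finset ℕ) (N W : ℕ)

lemma nz_mul (hZ : ∀ R ≤ N, R ∉ Z → γ R = -γ (R / p)) (hW : #Z ≤ W) (x : ℕ) (hx : p * x ≤ N + 1) :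
    p * #{R ∈ range x | γ R ≠ 0} ≤ #{R ∈ range (p * x) | γ R ≠ 0} + W := by
  rw [← card_lift hp.out.pos]
  refine le_trans (card_le_card (t := {R ∈ range (p * x) | γ R ≠ 0} ∪ Z) ?_)
    ((card_union_le _ _).trans (Nat.add_le_add_left hW _))
  intro R hR
  rw [mem_lift hp.out.pos, mem_filter, mem_range] at hR
  have hlt : R < p * x := by
    have := hR.1
    rw [Nat.div_lt_iff_lt_mul hp.out.pos] at this
    rwa [mul_comm]
  simp only [mem_union, mem_filter, mem_range]
  by_cases h : R ∈ Z
  · right; exact h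
  · left
    refine ⟨hlt, ?_⟩
    rw [hZ R (by omega) h]
    simpa using hR.2

lemma bad_step (hZ : ∀ R ≤ N, R ∉ Z → γ R = -γ (R / p)) (hW : #Z ≤ W) (x y : ℕ)
    (hy : p * y ≤ N + 1) (c : ZMod p) :
    #{R ∈ Ico (p * x) (p * y) | γ R ≠ -c} ≤ p * #{R ∈ Ico x y | γ R ≠ c} + W := by
  rw [← card_lift hp.out.pos]
  refine le_trans (card_le_card (t := lift p {R ∈ Ico x y | γ R ≠ c} ∪ Z) ?_)
    ((card_union_le _ _).trans (Nat.add_le_add_left hW _))
  intro R hR
  rw [mem_filter, mem_Ico] at hR
  rw [mem_union]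
  by_cases h : R ∈ Z
  · right; exact h
  · left
    rw [mem_lift hp.out.pos, mem_filter, mem_Ico]
    have h1 := hZ R (by omega) h
    refine ⟨⟨?_, ?_⟩, ?_⟩
    · rw [Nat.le_div_iff_mul_le hp.out.pos, mul_comm]; exact hR.1.1
    · rw [Nat.div_lt_iff_lt_mul hp.out.pos, mul_comm]; exact hR.1.2
    · intro h2
      apply hR.2
      rw [h1, h2]

/-- If `γ` is equal to `c` on a long interval, then it takes the value `± c` on its dilates. -/
lemma propagate (hp3 : 3 ≤ p) (hZ : ∀ R ≤ N, R ∉ Z → γ R = -γ (R / p)) (hW : #Z ≤ W) (x L : ℕ)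
    (hL : W < L) (c : ZMod p) (hc : ∀ R ∈ Ico x (x + L), γ R = c) (i : ℕ)
    (hi : p ^ i * (x + L) ≤ N + 1) :
    ∃ R ∈ Ico (p ^ i * x) (p ^ i * (x + L)), γ R = (-1) ^ i * c := by
  have key : ∀ i, p ^ i * (x + L) ≤ N + 1 →
      #{R ∈ Ico (p ^ i * x) (p ^ i * (x + L)) | γ R ≠ (-1) ^ i * c} + W ≤ p ^ i * W := by
    intro i
    induction i with
    | zero =>
      intro _
      rw [pow_zero, pow_zero, one_mul, one_mul, one_mul, one_mul]
      have : {R ∈ Ico x (x + L) | γ R ≠ c} = ∅ := by
        rw [filter_eq_empty_iff]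
        intro R hR
        rw [not_not]
        exact hc R hR
      rw [this, card_empty]
      omega
    | succ i ih =>
      intro hi
      have hle : p ^ i * (x + L) ≤ N + 1 := by
        refine le_trans ?_ hi
        exact Nat.mul_le_mul_right _ (Nat.pow_le_pow_right hp.out.pos (Nat.le_succ i))
      have h1 := ih hle
      have h2 := bad_step γ Z N W hZ hW (p ^ i * x) (p ^ i * (x + L))
        (by rw [← mul_assoc, ← pow_succ']; exact hi) ((-1) ^ i * c)
      rw [← mul_assoc, ← mul_assoc, ← pow_succ'] at h2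
      have e : (-1 : ZMod p) ^ (i + 1) * c = -((-1) ^ i * c) := by ring
      rw [e]
      have h3 : p * (#{R ∈ Ico (p ^ i * x) (p ^ i * (x + L)) | γ R ≠ (-1) ^ i * c} + W) ≤
          p * (p ^ i * W) := Nat.mul_le_mul_left _ h1
      rw [Nat.mul_add] at h3
      have h4 : 3 * W ≤ p * W := Nat.mul_le_mul_right _ hp3
      have h5 : p ^ (i + 1) * W = p * (p ^ i * W) := by ring
      rw [h5]
      omega
  by_contra hcon
  push Not at hcon
  have h1 := key i hi
  have h2 : {R ∈ Ico (p ^ i * x) (p ^ i * (x + L)) | γ R ≠ (-1) ^ i * c} =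
      Ico (p ^ i * x) (p ^ i * (x + L)) := by
    rw [filter_eq_self]
    exact hcon
  rw [h2, Nat.card_Ico, ← Nat.mul_sub, Nat.add_sub_cancel_left] at h1
  have h3 : p ^ i * W < p ^ i * L := Nat.mul_lt_mul_of_pos_left hL (pow_pos hp.out.pos i)
  omega

/-- `γ` is not almost constant on `[k, p² k)`. -/
lemma nonconst (hp3 : 3 ≤ p) (hZ : ∀ R ≤ N, R ∉ Z → γ R = -γ (R / p)) (hW : #Z ≤ W) (k ε : ℕ)
    (hk : p ^ 2 * k ≤ N + 1) (h1 : (p + 1) * ε + W < p * (p - 1) * k)
    (h2 : 2 * ε + W < #{R ∈ range (p ^ 2 * k) | γ R ≠ 0}) (c : ZMod p) :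
    ε < #{R ∈ Ico k (p ^ 2 * k) | γ R ≠ c} := by
  by_contra hcon
  push Not at hcon
  have hpp := hp.out.pos
  have hk1 : k ≤ p * k := Nat.le_mul_of_pos_left _ hpp
  have hk2 : p * k ≤ p ^ 2 * k := by
    rw [sq, mul_assoc]; exact Nat.le_mul_of_pos_left _ hpp
  -- first `c = 0`
  have hc0 : c = 0 := by
    have h3 := bad_step γ Z N W hZ hW k (p * k)
      (by rw [← mul_assoc, ← sq]; exact hk) c
    rw [← mul_assoc, ← sq] at h3
    have h4 : #{R ∈ Ico k (p * k) | γ R ≠ c} ≤ ε := by
      refine le_trans (card_le_card ?_) hcon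
      intro R hR
      rw [mem_filter, mem_Ico] at hR ⊢
      exact ⟨⟨hR.1.1, lt_of_lt_of_le hR.1.2 hk2⟩, hR.2⟩
    have h5 : #{R ∈ Ico (p * k) (p ^ 2 * k) | γ R ≠ c} ≤ ε := by
      refine le_trans (card_le_card ?_) hcon
      intro R hR
      rw [mem_filter, mem_Ico] at hR ⊢
      exact ⟨⟨le_trans hk1 hR.1.1, hR.1.2⟩, hR.2⟩
    have h6 : ∃ R ∈ Ico (p * k) (p ^ 2 * k), γ R = c ∧ γ R = -c := by
      by_contra hno
      push Not at hno
      have hsub : Ico (p * k) (p ^ 2 * k) ⊆ {R ∈ Ico (p * k) (p ^ 2 * k) | γ R ≠ c} ∪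
          {R ∈ Ico (p * k) (p ^ 2 * k) | γ R ≠ -c} := by
        intro R hR
        rw [mem_union, mem_filter, mem_filter]
        by_cases h : γ R = c
        · right; exact ⟨hR, hno R hR h⟩
        · left; exact ⟨hR, h⟩
      have h7 := (card_le_card hsub).trans (card_union_le _ _)
      rw [Nat.card_Ico] at h7
      have h8 : p * (p - 1) * k = p ^ 2 * k - p * k := by
        obtain ⟨q, rfl⟩ : ∃ q, p = q + 1 := ⟨p - 1, by omega⟩
        rw [Nat.add_sub_cancel]
        have : (q + 1) ^ 2 * k = (q + 1) * q * k + (q + 1) * k := by ring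
        omega
      rw [h8] at h1
      have h9 : p * #{R ∈ Ico k (p * k) | γ R ≠ c} ≤ p * ε := Nat.mul_le_mul_left _ h4
      have h10 : (p + 1) * ε = p * ε + ε := by ring
      omega
    obtain ⟨R, _, hR1, hR2⟩ := h6
    have h11 : (2 : ZMod p) * c = 0 := by
      rw [two_mul]
      nth_rewrite 1 [← hR1]
      rw [hR2]; ring
    rcases mul_eq_zero.1 h11 with h | h
    · exfalso
      have h12 : ((2 : ℕ) : ZMod p) = 0 := by exact_mod_cast h
      rw [ZMod.natCast_eq_zero_iff] at h12
      have := Nat.le_of_dvd (by norm_num) h12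
      omega
    · exact h
  rw [hc0] at hcon
  have h3 := nz_mul γ Z N W hZ hW k (le_trans hk2 hk)
  have h4 := nz_mul γ Z N W hZ hW (p * k) (by rw [← mul_assoc, ← sq]; exact hk)
  rw [← mul_assoc, ← sq] at h4
  have h5 : #{R ∈ range (p ^ 2 * k) | γ R ≠ 0} ≤
      #{R ∈ range k | γ R ≠ 0} + #{R ∈ Ico k (p ^ 2 * k) | γ R ≠ 0} := by
    refine le_trans (card_le_card ?_) (card_union_le _ _)
    intro R hR
    rw [mem_filter, mem_range] at hR
    rw [mem_union, mem_filter, mem_filter, mem_range, mem_Ico]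
    by_cases h : R < k
    · left; exact ⟨h, hR.2⟩
    · right; exact ⟨⟨by omega, hR.1⟩, hR.2⟩
  set n0 := #{R ∈ range k | γ R ≠ 0}
  set n1 := #{R ∈ range (p * k) | γ R ≠ 0}
  set n2 := #{R ∈ range (p ^ 2 * k) | γ R ≠ 0}
  -- `p n0 ≤ n1 + W`, `p n1 ≤ n2 + W`, `n2 ≤ n0 + ε`
  have h6 : 3 * n0 ≤ p * n0 := Nat.mul_le_mul_right _ hp3
  have h7 : 3 * n1 ≤ p * n1 := Nat.mul_le_mul_right _ hp3
  omega

/-- **Transition lemma.** -/
theorem transition (hp3 : 3 ≤ p)
    (hS : ∀ R, R + 1 ≤ N → γ (R + 1) ≠ γ R → R + 1 ∈ S)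
    (hZ : ∀ R ≤ N, R ∉ Z → γ R = -γ (R / p)) (hW : #Z ≤ W) (k L : ℕ) (hL : W < L)
    (hk : p ^ 2 * k ≤ N + 1) (h1 : (p + 1) * ((#S + 1) * L) + W < p * (p - 1) * k)
    (h2 : 2 * ((#S + 1) * L) + W < #{R ∈ range (p ^ 2 * k) | γ R ≠ 0}) :
    ∃ u w, k ≤ u ∧ u < w ∧ w ≤ p ^ 2 * k ∧ w ≤ u + (#S + 2) * L ∧
      ∀ i, p ^ i * w ≤ N + 1 → ∃ s ∈ S, p ^ i * u < s ∧ s < p ^ i * w := by
  classical
  have hnc := nonconst γ Z N W hp3 hZ hW k _ hk h1 h2
  have hL0 : 0 < L := by omega
  set J := (p ^ 2 * k - k) / L with hJ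
  have hkk : k ≤ p ^ 2 * k := Nat.le_mul_of_pos_left _ (pow_pos hp.out.pos 2)
  -- clean blocks
  let clean : ℕ → Prop := fun j => ∀ R ∈ Ico (k + j * L) (k + (j + 1) * L), γ R = γ (k + j * L)
  have hJL : J * L ≤ p ^ 2 * k - k := Nat.div_mul_le_self _ _
  have hend : ∀ j < J, k + (j + 1) * L ≤ p ^ 2 * k := by
    intro j hj
    have : (j + 1) * L ≤ J * L := Nat.mul_le_mul_right _ hj
    omega
  -- an unclean block contains an element of `S`
  have hunclean : ∀ j < J, ¬ clean j → ∃ s ∈ S, k + j * L < s ∧ s < k + (j + 1) * L := by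
    intro j hj hnot
    by_contra hno
    push Not at hno
    apply hnot
    intro R hR
    rw [mem_Ico] at hR
    obtain ⟨d, rfl⟩ : ∃ d, R = k + j * L + d := ⟨R - (k + j * L), by omega⟩
    clear hnot
    induction d with
    | zero => rfl
    | succ d ih =>
      rw [← ih (by omega)]
      by_contra hne
      have hend' := hend j hj
      have hmem := hS (k + j * L + d) (by omega) (by rw [← add_assoc] at hne; exact hne)
      have := hno _ hmem (by omega)
      omega
  -- not all clean blocks have the same value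
  have hval : ∀ c : ZMod p, ∃ j < J, clean j ∧ γ (k + j * L) ≠ c := by
    intro c
    by_contra hno
    push Not at hno
    have hlt := hnc c
    -- the set of the `R` with `γ R ≠ c` is covered by unclean blocks and the last one
    have hsub : {R ∈ Ico k (p ^ 2 * k) | γ R ≠ c} ⊆
        (S.biUnion fun s => Ico (k + ((s - k) / L) * L) (k + ((s - k) / L + 1) * L)) ∪
        Ico (k + J * L) (k + (J + 1) * L) := by
      intro R hR
      rw [mem_filter, mem_Ico] at hR
      rw [mem_union, mem_biUnion]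
      set j := (R - k) / L with hj
      have e1 : j * L ≤ R - k := Nat.div_mul_le_self _ _
      have e2 : R - k < (j + 1) * L := by
        have := Nat.lt_mul_div_succ (R - k) hL0
        rw [← hj] at this
        rwa [mul_comm]
      by_cases hjJ : j < J
      · left
        have hncl : ¬ clean j := by
          intro hcl
          apply hR.2
          rw [hcl R (by rw [mem_Ico]; omega)]
          exact hno j hjJ hcl
        obtain ⟨s, hs, h3, h4⟩ := hunclean j hjJ hncl
        refine ⟨s, hs, ?_⟩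
        have e3 : (s - k) / L = j := by
          rw [Nat.div_eq_iff hL0]
          constructor
          · omega
          · have : (j + 1) * L = j * L + L := by ring
            omega
        rw [e3, mem_Ico]
        omega
      · right
        have e4 : j ≤ J := by
          rw [hj, hJ]
          exact Nat.div_le_div_right (by omega)
        have e5 : j = J := by omega
        rw [e5] at e1 e2
        rw [mem_Ico]
        omega
    have hcard := (card_le_card hsub).trans (card_union_le _ _)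
    have h3 : #(S.biUnion fun s => Ico (k + ((s - k) / L) * L) (k + ((s - k) / L + 1) * L)) ≤
        #S * L := by
      refine card_biUnion_le_card_mul _ _ _ ?_
      intro s _
      rw [Nat.card_Ico]
      have : ((s - k) / L + 1) * L = (s - k) / L * L + L := by ring
      omega
    have h4 : #(Ico (k + J * L) (k + (J + 1) * L)) = L := by
      rw [Nat.card_Ico]
      have : (J + 1) * L = J * L + L := by ring
      omega
    rw [h4] at hcard
    have h5 : (#S + 1) * L = #S * L + L := by ring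
    omega
  -- the first clean block
  have hex0 : ∃ j, j < J ∧ clean j := by
    obtain ⟨j, hj, hcl, _⟩ := hval 0
    exact ⟨j, hj, hcl⟩
  set j0 := Nat.find hex0 with hj0
  have hj0s := Nat.find_spec hex0
  rw [← hj0] at hj0s
  -- the first clean block with another value
  have hex1 : ∃ j, j < J ∧ clean j ∧ γ (k + j * L) ≠ γ (k + j0 * L) := hval _
  set j1 := Nat.find hex1 with hj1
  have hj1s := Nat.find_spec hex1
  rw [← hj1] at hj1s
  have hj1m := fun m (hm : m < j1) => Nat.find_min hex1 hm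
  have hj01 : j0 < j1 := by
    have h3 : j0 ≤ j1 := Nat.find_min' hex0 ⟨hj1s.1, hj1s.2.1⟩
    rcases Nat.lt_or_eq_of_le h3 with h | h
    · exact h
    · exfalso; apply hj1s.2.2; rw [h]
  -- the last clean block before it
  have hexm : ∃ j, j < j1 ∧ clean j ∧ ∀ j', j < j' → j' < j1 → ¬ clean j' := by
    have hne : ({j ∈ range j1 | clean j}).Nonempty :=
      ⟨j0, by rw [mem_filter, mem_range]; exact ⟨hj01, hj0s.2⟩⟩
    refine ⟨({j ∈ range j1 | clean j}).max' hne, ?_, ?_, ?_⟩
    · have := max'_mem _ hne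
      rw [mem_filter, mem_range] at this
      exact this.1
    · have := max'_mem _ hne
      rw [mem_filter, mem_range] at this
      exact this.2
    · intro j' h3 h4 hcl
      have := le_max' ({j ∈ range j1 | clean j}) j' (by rw [mem_filter, mem_range]; exact ⟨h4, hcl⟩)
      omega
  obtain ⟨j, hjlt, hjcl, hjm⟩ := hexm
  have hjv : γ (k + j * L) = γ (k + j0 * L) := by
    by_contra hne
    exact hj1m j hjlt ⟨by omega, hjcl, hne⟩
  have hgap : j1 ≤ j + #S + 1 := by
    -- the blocks strictly between `j` and `j1` are unclean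
    have h3 : #(Ioo j j1) ≤ #S := by
      have hch : ∀ j' ∈ Ioo j j1, ∃ s ∈ S, k + j' * L < s ∧ s < k + (j' + 1) * L := by
        intro j' hj'
        rw [mem_Ioo] at hj'
        exact hunclean j' (by omega) (hjm j' hj'.1 hj'.2)
      choose! f hf using hch
      refine card_le_card_of_injOn f (fun j' hj' => (hf j' hj').1) ?_
      intro a ha b hb hab
      have h4 := hf a ha
      have h5 := hf b hb
      rw [hab] at h4
      by_contra hne
      rcases Nat.lt_or_gt_of_ne hne with h | h
      · have : (a + 1) * L ≤ b * L := Nat.mul_le_mul_right _ h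
        omega
      · have : (b + 1) * L ≤ a * L := Nat.mul_le_mul_right _ h
        omega
    rw [Nat.card_Ioo] at h3
    omega
  refine ⟨k + j * L, k + (j1 + 1) * L, by omega, ?_, hend j1 hj1s.1, ?_, ?_⟩
  · have : j * L < (j1 + 1) * L := Nat.mul_lt_mul_of_pos_right (by omega) hL0
    omega
  · have h3 : (j1 + 1) * L ≤ (j + #S + 2) * L := Nat.mul_le_mul_right _ (by omega)
    have h4 : (j + #S + 2) * L = j * L + (#S + 2) * L := by ring
    omega
  · intro i hi
    have e1 : k + j * L + L = k + (j + 1) * L := by ring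
    have e2 : k + j1 * L + L = k + (j1 + 1) * L := by ring
    have e3 : k + (j + 1) * L ≤ k + j1 * L := by
      have : (j + 1) * L ≤ j1 * L := Nat.mul_le_mul_right _ hjlt
      omega
    have e4 : p ^ i * (k + (j + 1) * L) ≤ p ^ i * (k + j1 * L) := Nat.mul_le_mul_left _ e3
    have e5 : p ^ i * (k + j1 * L) ≤ p ^ i * (k + (j1 + 1) * L) :=
      Nat.mul_le_mul_left _ (by rw [← e2]; omega)
    obtain ⟨R1, hR1, hv1⟩ := propagate γ Z N W hp3 hZ hW (k + j * L) L hL (γ (k + j * L))
      (by rw [e1]; exact hjcl) i (by rw [e1]; omega)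
    obtain ⟨R2, hR2, hv2⟩ := propagate γ Z N W hp3 hZ hW (k + j1 * L) L hL (γ (k + j1 * L))
      (by rw [e2]; exact hj1s.2.1) i (by rw [e2]; omega)
    rw [e1, mem_Ico] at hR1
    rw [e2, mem_Ico] at hR2
    have hne : γ R1 ≠ γ R2 := by
      rw [hv1, hv2, hjv]
      intro h
      apply hj1s.2.2
      have hu : ((-1 : ZMod p) ^ i) ≠ 0 := pow_ne_zero _ (by simp)
      exact (mul_left_cancel₀ hu h).symm
    have hlt : R1 < R2 := by omega
    -- there is a change between `R1` and `R2`
    have hch : ∃ R, R1 ≤ R ∧ R < R2 ∧ γ (R + 1) ≠ γ R := by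
      by_contra hno
      push Not at hno
      apply hne
      obtain ⟨d, rfl⟩ : ∃ d, R2 = R1 + d := ⟨R2 - R1, by omega⟩
      have : ∀ e ≤ d, γ R1 = γ (R1 + e) := by
        intro e
        induction e with
        | zero => intro _; rfl
        | succ e ih =>
          intro he
          rw [ih (by omega), ← add_assoc]
          exact (hno (R1 + e) (by omega) (by omega)).symm
      exact this d le_rfl
    obtain ⟨R, h3, h4, h5⟩ := hch
    refine ⟨R + 1, hS R (by omega) h5, by omega, by omega⟩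

end

end Pool.Agent.DigitChanges
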