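import Pool.Agent.Lib.DigitChanges.Analytic
import Pool.Agent.Lib.DigitChanges.ModP
import Pool.Agent.Lib.DigitChanges.SelfSimilar
import Pool.Agent.Lib.DigitChanges.Overlap

/-!
# The main inequality for the number of digit changes (all bases)
-/

open Finset PowerSeries

namespace Pool.Agent.DigitChanges

/-- `p` is an admissible prime for the base `b` and the lag `l`: odd, not dividing `b`, and
`2 (b^l - 1)^2` is a quadratic nonresidue mod `p`. -/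
def Adm (b l p : ℕ) : Prop :=
  p.Prime ∧ 3 ≤ p ∧ ¬ p ∣ b ∧ ((2 * ((b : ℤ) ^ l - 1) ^ 2 : ℤ) : ZMod p) ^ ((p - 1) / 2) = -1

/-- transition zones for one admissible prime -/
lemma zones (b l : ℕ) (hb : 2 ≤ b) (hl : 1 ≤ l) (N H P0 p : ℕ) (hp : Adm b l p) (hpP : p ≤ P0)
    (hH : 2 ≤ H) (hN : H ^ 8 ≤ N) (hP0 : P0 ^ 2 ≤ H)
    (hM : sc (Fs b l) (N + 1) + 3 ≤ H)
    (hW : P0 * (36 * b ^ (2 * l + 2) * sc (Fs b l) (N + 1) ^ 2) *
      sc (Fs b l) (N + 1) ^ P0 + 1 ≤ H) :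
    ∃ u w, H ^ 6 ≤ u ∧ w ≤ u + H ^ 2 ∧ ∀ i, p ^ i ≤ H →
      ∃ s ∈ ({R ∈ range N | coeff R (Fs b l) ≠ 0} : Finset ℕ), p ^ i * u < s ∧ s < p ^ i * w := by
  obtain ⟨hprime, hp3, hpb, hDm⟩ := hp
  have : Fact p.Prime := ⟨hprime⟩
  set F := Fs b l with hF
  set G := Gs b l with hG
  set T := Ts b l with hT
  set D : ℤ := 2 * ((b : ℤ) ^ l - 1) ^ 2 with hD
  set M := sc F (N + 1) with hMdef
  set m := (p - 1) / 2 with hm
  have hodd : p = 2 * m + 1 := by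
    have h2 := hprime.eq_two_or_odd
    omega
  have hm1 : 1 ≤ m := by omega
  have hbp : ((b : ℤ) : ZMod p) ≠ 0 := by
    rw [Int.cast_natCast, Ne, ZMod.natCast_eq_zero_iff]
    exact hpb
  have hD0 : (D : ZMod p) ≠ 0 := by
    intro h
    rw [h, zero_pow (by omega)] at hDm
    have : (0 : ZMod p) ≠ -1 := by simp
    exact this hDm
  have hN1 : 1 ≤ N := le_trans (Nat.one_le_pow _ _ (by omega)) hN
  have hF1 : 1 ≤ sc F N := by
    unfold sc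
    rw [Nat.one_le_iff_ne_zero, card_ne_zero]
    refine ⟨0, ?_⟩
    simp only [mem_filter, mem_range]
    refine ⟨by omega, ?_⟩
    rw [hF, coeff_zero_Fs b l hl]
    positivity
  have hFM : sc F N ≤ M := sc_mono F (Nat.le_succ N)
  have hM1 : 1 ≤ M := le_trans hF1 hFM
  -- the error sets
  set V := Vs D T F m with hV
  set Z : Finset ℕ := {R ∈ range N | coeff R V ≠ 0} with hZdef
  set S : Finset ℕ := {R ∈ range N | coeff R F ≠ 0} with hSdef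
  set W := P0 * (36 * b ^ (2 * l + 2) * M ^ 2) * M ^ P0 with hWdef
  have hTN : sc T N ≤ 36 * b ^ (2 * l + 2) * M ^ 2 := sc_Ts b l N hb hl
  have hZW : #Z ≤ W := by
    have h1 : #Z = sc V N := rfl
    rw [h1]
    refine (sc_Vs D T F m N hm1 hF1).trans ?_
    have h2 : sc F N ^ (2 * m - 1) ≤ M ^ P0 := by
      refine (Nat.pow_le_pow_left hFM _).trans (Nat.pow_le_pow_right hM1 (by omega))
    calc m * (sc T N * sc F N ^ (2 * m - 1)) ≤
        P0 * (36 * b ^ (2 * l + 2) * M ^ 2 * M ^ P0) :=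
          Nat.mul_le_mul (by omega) (Nat.mul_le_mul hTN h2)
      _ = W := by rw [hWdef]; ring
  have hSM : #S ≤ M := hFM
  have hTW : sc T N ≤ W := by
    have hP00 : 0 < P0 := by omega
    have hMP : 0 < M ^ P0 := pow_pos hM1 _
    calc sc T N ≤ 36 * b ^ (2 * l + 2) * M ^ 2 := hTN
      _ ≤ P0 * (36 * b ^ (2 * l + 2) * M ^ 2) := Nat.le_mul_of_pos_left _ hP00
      _ ≤ P0 * (36 * b ^ (2 * l + 2) * M ^ 2) * M ^ P0 := Nat.le_mul_of_pos_right _ hMP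
  have hγZ : ∀ R ≤ N - 1, R ∉ Z → gam p b G R = -gam p b G (R / p) := by
    intro R hR hRZ
    apply gam_eq p b D T F G m hodd hbp hDm rfl rfl
    by_contra hne
    apply hRZ
    rw [hZdef, mem_filter, mem_range]
    exact ⟨by omega, hne⟩
  have hγS : ∀ R, R + 1 ≤ N - 1 → gam p b G (R + 1) ≠ gam p b G R → R + 1 ∈ S := by
    intro R hR hne
    rw [hSdef, mem_filter, mem_range]
    refine ⟨by omega, ?_⟩
    intro h
    exact hne (gam_succ p b F G hbp rfl R h)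
  -- sizes
  have hL : W < W + 1 := Nat.lt_succ_self W
  have hSH : (#S + 1) * (W + 1) ≤ H ^ 2 := by
    rw [sq]; exact Nat.mul_le_mul (by omega) hW
  have hSH2 : (#S + 2) * (W + 1) ≤ H ^ 2 := by
    rw [sq]; exact Nat.mul_le_mul (by omega) hW
  have hpH : p ^ 2 ≤ H := le_trans (Nat.pow_le_pow_left hpP 2) hP0
  have hk : p ^ 2 * H ^ 6 ≤ N := by
    calc p ^ 2 * H ^ 6 ≤ H * H ^ 6 := Nat.mul_le_mul_right _ hpH
      _ ≤ H ^ 8 := by
          rw [← pow_succ']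
          exact Nat.pow_le_pow_right (by omega) (by norm_num)
      _ ≤ N := hN
  have hH3 : 4 * H ^ 3 < H ^ 6 := by
    have h1 : 8 ≤ H ^ 3 := by
      calc 8 = 2 ^ 3 := by norm_num
        _ ≤ H ^ 3 := Nat.pow_le_pow_left hH 3
    have h2 : 8 * H ^ 3 ≤ H ^ 3 * H ^ 3 := Nat.mul_le_mul_right _ h1
    rw [← pow_add] at h2
    norm_num at h2
    omega
  have hH23 : H ^ 2 ≤ H ^ 3 := Nat.pow_le_pow_right (by omega) (by norm_num)
  have hH13 : H ≤ H ^ 3 := Nat.le_self_pow (by norm_num) H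
  have h1 : (p + 1) * ((#S + 1) * (W + 1)) + W < p * (p - 1) * H ^ 6 := by
    have h2 : p + 1 ≤ p * (p - 1) := by
      obtain ⟨q, rfl⟩ : ∃ q, p = q + 3 := ⟨p - 3, by omega⟩
      have : (q + 3) * (q + 3 - 1) = q * q + 5 * q + 6 := by
        rw [show q + 3 - 1 = q + 2 by omega]; ring
      omega
    have h3 : (p + 1) * ((#S + 1) * (W + 1)) ≤ (p + 1) * H ^ 2 := Nat.mul_le_mul_left _ hSH
    have h4 : (p + 1) * H ^ 6 ≤ p * (p - 1) * H ^ 6 := Nat.mul_le_mul_right _ h2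
    have h5 : W ≤ (p + 1) * H ^ 3 := by
      have : H ^ 3 ≤ (p + 1) * H ^ 3 := Nat.le_mul_of_pos_left _ (by omega)
      omega
    have h6 : (p + 1) * H ^ 2 ≤ (p + 1) * H ^ 3 := Nat.mul_le_mul_left _ hH23
    have h7 : (p + 1) * (4 * H ^ 3) < (p + 1) * H ^ 6 := Nat.mul_lt_mul_of_pos_left hH3 (by omega)
    have h8 : (p + 1) * (4 * H ^ 3) = 4 * ((p + 1) * H ^ 3) := by ring
    omega
  have h2 : 2 * ((#S + 1) * (W + 1)) + W < #{R ∈ range (p ^ 2 * H ^ 6) | gam p b G R ≠ 0} := by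
    have h3 := gam_ne_zero_count p b D T F G hbp hD0 rfl (p ^ 2 * H ^ 6)
    set n2 := #{R ∈ range (p ^ 2 * H ^ 6) | gam p b G R ≠ 0} with hn2
    by_contra hcon
    push Not at hcon
    have h4 : n2 ≤ 3 * H ^ 2 := by
      have : H ≤ H ^ 2 := Nat.le_self_pow (by norm_num) H
      omega
    have h5 : sc T (p ^ 2 * H ^ 6) ≤ H := (sc_mono T hk).trans (by omega)
    have h6 : sc F (p ^ 2 * H ^ 6) ≤ H := (sc_mono F hk).trans (by omega)
    have h7 : sc F (p ^ 2 * H ^ 6) * n2 ≤ H * (3 * H ^ 2) := Nat.mul_le_mul h6 h4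
    have h8 : H * (3 * H ^ 2) = 3 * H ^ 3 := by ring
    have h9 : H ^ 6 ≤ p ^ 2 * H ^ 6 := Nat.le_mul_of_pos_left _ (pow_pos hprime.pos 2)
    omega
  obtain ⟨u, w, hu1, huw, hw1, hw2, hs⟩ := transition (gam p b G) S Z (N - 1) W hp3 hγS hγZ hZW
    (H ^ 6) (W + 1) hL (by omega) h1 h2
  refine ⟨u, w, hu1, by omega, fun i hi => hs i ?_⟩
  calc p ^ i * w ≤ H * (p ^ 2 * H ^ 6) := Nat.mul_le_mul hi hw1
    _ ≤ H * (H * H ^ 6) := Nat.mul_le_mul_left _ (Nat.mul_le_mul_right _ hpH)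
    _ = H ^ 8 := by ring
    _ ≤ N := hN
    _ ≤ N - 1 + 1 := by omega

/-- **Main inequality.** -/
theorem main_ineq (b l : ℕ) (hb : 2 ≤ b) (hl : 1 ≤ l) (N H P0 n : ℕ) (P : Finset ℕ)
    (hP : ∀ p ∈ P, Adm b l p) (hpP : ∀ p ∈ P, p ≤ P0)
    (hH : 2 ≤ H) (hN : H ^ 8 ≤ N) (hP0 : P0 ^ 2 ≤ H) (hn : P0 ^ n ≤ H)
    (hM : sc (Fs b l) (N + 1) + 3 ≤ H)
    (hW : P0 * (36 * b ^ (2 * l + 2) * sc (Fs b l) (N + 1) ^ 2) *
      sc (Fs b l) (N + 1) ^ P0 + 1 ≤ H) :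
    #P * n ≤ sc (Fs b l) (N + 1) + #P * #P := by
  have h1 : ∀ p ∈ P, ∃ u w, H ^ 6 ≤ u ∧ w ≤ u + H ^ 2 ∧ ∀ i, p ^ i ≤ H →
      ∃ s ∈ ({R ∈ range N | coeff R (Fs b l) ≠ 0} : Finset ℕ), p ^ i * u < s ∧ s < p ^ i * w :=
    fun p hp => zones b l hb hl N H P0 p (hP p hp) (hpP p hp) hH hN hP0 hM hW
  choose! u w hu hw hs using h1
  have hpi : ∀ p ∈ P, ∀ i < n, p ^ i ≤ H := by
    intro p hp i hi
    have hp0 := (hP p hp).1.pos
    calc p ^ i ≤ p ^ n := Nat.pow_le_pow_right hp0 hi.le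
      _ ≤ P0 ^ n := Nat.pow_le_pow_left (hpP p hp) n
      _ ≤ H := hn
  have hH3 : 4 * H * H ^ 2 < H ^ 6 := by
    have h1 : 8 ≤ H ^ 3 := by
      calc 8 = 2 ^ 3 := by norm_num
        _ ≤ H ^ 3 := Nat.pow_le_pow_left hH 3
    have h2 : 8 * H ^ 3 ≤ H ^ 3 * H ^ 3 := Nat.mul_le_mul_right _ h1
    rw [← pow_add] at h2
    norm_num at h2
    have h3 : 4 * H * H ^ 2 = 4 * H ^ 3 := by ring
    omega
  have h2 := many_changes {R ∈ range N | coeff R (Fs b l) ≠ 0} P u w (H ^ 6) (H ^ 2) H n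
    (fun p hp => (hP p hp).1) (fun p hp => (hP p hp).2.1) hu hw hH3 hpi
    (fun p hp i hi => hs p hp i (hpi p hp i hi))
  have h3 : #({R ∈ range N | coeff R (Fs b l) ≠ 0} : Finset ℕ) ≤ sc (Fs b l) (N + 1) :=
    sc_mono (Fs b l) (Nat.le_succ N)
  omega

end Pool.Agent.DigitChanges
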