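import Mathlib

/-!
# Many primes `p ≡ ± 3` modulo `8`

A Chebyshev type lower bound for the number of primes at which `2` is a quadratic nonresidue,
through the elementary Mertens theorems for the character `χ₈`.
-/

open Finset ArithmeticFunction

namespace Pool.Agent.DigitChanges

/-- the real-valued character mod 8 with `ch 1 = ch 7 = 1`, `ch 3 = ch 5 = -1` -/
noncomputable def ch (n : ℕ) : ℝ := ((ZMod.χ₈ (n : ZMod 8) : ℤ) : ℝ)

lemma ch_mul (m n : ℕ) : ch (m * n) = ch m * ch n := by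
  unfold ch
  rw [Nat.cast_mul, map_mul, Int.cast_mul]

lemma ch_eq (n : ℕ) : ch n = if n % 2 = 0 then 0 else if n % 8 = 1 ∨ n % 8 = 7 then 1 else -1 := by
  unfold ch
  rw [ZMod.χ₈_nat_eq_if_mod_eight]
  split_ifs <;> simp

lemma abs_ch_le (n : ℕ) : |ch n| ≤ 1 := by
  rw [ch_eq]
  split_ifs <;> simp

lemma sum_ch_period (n : ℕ) : ∑ i ∈ range (n + 8), ch i = ∑ i ∈ range n, ch i := by
  rw [sum_range_add]
  simp only [sum_range_succ, range_zero, sum_empty]
  have h : n % 8 = 0 ∨ n % 8 = 1 ∨ n % 8 = 2 ∨ n % 8 = 3 ∨ n % 8 = 4 ∨ n % 8 = 5 ∨ n % 8 = 6 ∨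
      n % 8 = 7 := by omega
  have e : ∀ k j : ℕ, (n + k) % 8 = j → (n + k) % 2 = j % 2 := by intro k j h; omega
  have hval : ∀ k j : ℕ, n % 8 = j → ch (n + k) = ch (j + k) := by
    intro k j hj
    unfold ch
    rw [ZMod.χ₈_nat_mod_eight (n + k), ZMod.χ₈_nat_mod_eight (j + k)]
    have : (n + k) % 8 = (j + k) % 8 := by omega
    rw [this]
  rcases h with h | h | h | h | h | h | h | h <;>
  · simp only [hval _ _ h]
    norm_num [ch_eq]

lemma abs_sum_ch_le (n : ℕ) : |∑ i ∈ range n, ch i| ≤ 1 := by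
  induction n using Nat.strong_induction_on with
  | _ n ih =>
    by_cases h : n < 8
    · interval_cases n <;> norm_num [sum_range_succ, ch_eq]
    · obtain ⟨m, rfl⟩ : ∃ m, n = m + 8 := ⟨n - 8, by omega⟩
      rw [sum_ch_period]
      exact ih m (by omega)

lemma abs_sum_ch_shift_le (k n : ℕ) : |∑ i ∈ range n, ch (k + i)| ≤ 2 := by
  have h1 : ∑ i ∈ range (k + n), ch i = ∑ i ∈ range k, ch i + ∑ i ∈ range n, ch (k + i) :=
    sum_range_add _ _ _
  have h2 := abs_sum_ch_le (k + n)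
  have h3 := abs_sum_ch_le k
  rw [abs_le] at h2 h3 ⊢
  constructor <;> linarith

/-- Abel's inequality. -/
lemma abel (a g : ℕ → ℝ) (B : ℝ) (hg : ∀ i, g (i + 1) ≤ g i) (hg0 : ∀ i, 0 ≤ g i)
    (ha : ∀ n, |∑ i ∈ range n, a i| ≤ B) (n : ℕ) : |∑ i ∈ range n, a i * g i| ≤ B * g 0 := by
  have hB : 0 ≤ B := le_trans (abs_nonneg _) (ha 0)
  have key : ∀ n, |∑ i ∈ range n, a i * g i - (∑ i ∈ range n, a i) * g n| ≤ B * (g 0 - g n) := by
    intro n
    induction n with
    | zero => simp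
    | succ n ih =>
      have e : ∑ i ∈ range (n + 1), a i * g i - (∑ i ∈ range (n + 1), a i) * g (n + 1) =
          (∑ i ∈ range n, a i * g i - (∑ i ∈ range n, a i) * g n) +
          (∑ i ∈ range (n + 1), a i) * (g n - g (n + 1)) := by
        rw [sum_range_succ, sum_range_succ]; ring
      rw [e]
      refine (abs_add_le _ _).trans ?_
      have h1 : |(∑ i ∈ range (n + 1), a i) * (g n - g (n + 1))| ≤ B * (g n - g (n + 1)) := by
        rw [abs_mul, abs_of_nonneg (sub_nonneg.2 (hg n))]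
        exact mul_le_mul_of_nonneg_right (ha _) (sub_nonneg.2 (hg n))
      linarith
  have h1 := key n
  have h2 : |(∑ i ∈ range n, a i) * g n| ≤ B * g n := by
    rw [abs_mul, abs_of_nonneg (hg0 n)]
    exact mul_le_mul_of_nonneg_right (ha n) (hg0 n)
  have h3 : ∑ i ∈ range n, a i * g i =
      (∑ i ∈ range n, a i * g i - (∑ i ∈ range n, a i) * g n) + (∑ i ∈ range n, a i) * g n := by
    ring
  rw [h3]
  refine (abs_add_le _ _).trans ?_
  linarith

/-- `∑_{m ≤ N} ch m / m` -/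
noncomputable def Xs (N : ℕ) : ℝ := ∑ m ∈ Ioc 0 N, ch m / m

lemma abs_Xs_sub (N M : ℕ) (h : N ≤ M) : |Xs M - Xs N| ≤ 2 / (N + 1) := by
  have h1 : Xs M - Xs N = ∑ i ∈ range (M - N), ch (N + 1 + i) * (1 / ((N + 1 + i : ℕ) : ℝ)) := by
    unfold Xs
    rw [← sum_Ioc_consecutive _ (Nat.zero_le N) h, add_sub_cancel_left]
    rw [← Finset.Ico_add_one_add_one_eq_Ioc, sum_Ico_eq_sum_range]
    rw [show M + 1 - (N + 1) = M - N by omega]
    refine sum_congr rfl fun i _ => ?_
    ring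
  rw [h1]
  have h2 := abel (fun i => ch (N + 1 + i)) (fun i => 1 / ((N + 1 + i : ℕ) : ℝ)) 2
    (fun i => by
      apply one_div_le_one_div_of_le (by positivity)
      push_cast; linarith)
    (fun i => by positivity) (fun n => abs_sum_ch_shift_le (N + 1) n) (M - N)
  refine h2.trans (le_of_eq ?_)
  push_cast
  ring

/-- the value `L(1, χ₈)` -/
lemma exists_L : ∃ L : ℝ, 1 / 3 < L ∧ ∀ N : ℕ, |Xs N - L| ≤ 2 / (N + 1) := by
  have hc : CauchySeq Xs := by
    refine cauchySeq_of_le_tendsto_0' (fun N : ℕ => (2 : ℝ) / (N + 1)) ?_ ?_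
    · intro n m hnm
      rw [dist_comm, Real.dist_eq]
      exact abs_Xs_sub n m hnm
    · have := tendsto_one_div_add_atTop_nhds_zero_nat (𝕜 := ℝ)
      have h2 := this.const_mul (2 : ℝ)
      simp only [mul_zero] at h2
      refine h2.congr fun n => ?_
      ring
  obtain ⟨L, hL⟩ := cauchySeq_tendsto_of_complete hc
  have hb : ∀ N : ℕ, |Xs N - L| ≤ 2 / (N + 1) := by
    intro N
    have h1 : Filter.Tendsto (fun M => |Xs N - Xs M|) Filter.atTop (nhds |Xs N - L|) :=
      (hL.const_sub (Xs N)).abs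
    refine le_of_tendsto h1 ?_
    filter_upwards [Filter.eventually_ge_atTop N] with M hM
    rw [abs_sub_comm]
    exact abs_Xs_sub N M hM
  refine ⟨L, ?_, hb⟩
  have h8 := hb 8
  have hX : Xs 8 = 64 / 105 := by
    unfold Xs
    rw [show Ioc 0 8 = {1, 2, 3, 4, 5, 6, 7, 8} from rfl]
    norm_num [ch_eq]
  rw [hX, abs_le] at h8
  norm_num at h8 ⊢
  linarith [h8.2]

/-- `∑_{n ≤ N} ch n log n / n` is bounded. -/
lemma abs_sum_ch_log (N : ℕ) : |∑ n ∈ Ioc 0 N, ch n * Real.log n / n| ≤ 2 := by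
  by_cases h : N < 2
  · interval_cases N <;> simp
  · push Not at h
    have h1 : ∑ n ∈ Ioc 0 N, ch n * Real.log n / n =
        ∑ i ∈ range (N - 2), ch (3 + i) * (Real.log ((3 + i : ℕ) : ℝ) / ((3 + i : ℕ) : ℝ)) := by
      rw [← sum_Ioc_consecutive _ (Nat.zero_le 2) h]
      have h2 : ∑ n ∈ Ioc 0 2, ch n * Real.log n / (n : ℝ) = 0 := by
        rw [show Ioc 0 2 = {1, 2} from rfl]
        norm_num [ch_eq]
      rw [h2, zero_add, ← Finset.Ico_add_one_add_one_eq_Ioc, sum_Ico_eq_sum_range,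
        show N + 1 - (2 + 1) = N - 2 by omega]
      refine sum_congr rfl fun i _ => ?_
      norm_num
      ring
    rw [h1]
    have hanti := Real.log_div_self_antitoneOn
    have h3 := abel (fun i => ch (3 + i))
      (fun i => Real.log ((3 + i : ℕ) : ℝ) / ((3 + i : ℕ) : ℝ)) 2
      (fun i => by
        have he := Real.exp_one_lt_d9
        refine hanti ?_ ?_ ?_
        · rw [Set.mem_Ici]; push_cast; have : (0 : ℝ) ≤ i := by positivity
          linarith
        · rw [Set.mem_Ici]; push_cast; have : (0 : ℝ) ≤ i := by positivity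
          linarith
        · push_cast; linarith)
      (fun i => by
        have : (1 : ℝ) ≤ ((3 + i : ℕ) : ℝ) := by push_cast; have : (0 : ℝ) ≤ i := by positivity
                                                 linarith
        exact div_nonneg (Real.log_nonneg this) (by positivity))
      (fun n => abs_sum_ch_shift_le 3 n) (N - 2)
    refine h3.trans ?_
    have h4 : Real.log 3 ≤ 3 - 1 := Real.log_le_sub_one_of_pos (by norm_num)
    norm_num
    linarith

/-- the convolution identity -/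
lemma conv_identity (N : ℕ) : ∑ n ∈ Ioc 0 N, ch n * Real.log n / n =
    ∑ d ∈ Ioc 0 N, (ch d * vonMangoldt d / d) * Xs (N / d) := by
  let f : ArithmeticFunction ℝ := ⟨fun n => ch n * vonMangoldt n / n, by simp⟩
  let g : ArithmeticFunction ℝ := ⟨fun n => ch n / n, by simp⟩
  have h := sum_Ioc_mul_eq_sum_sum f g N
  have hR : ∑ n ∈ Ioc 0 N, f n * ∑ m ∈ Ioc 0 (N / n), g m =
      ∑ d ∈ Ioc 0 N, (ch d * vonMangoldt d / d) * Xs (N / d) := rfl
  rw [← hR, ← h]
  refine sum_congr rfl fun n hn => ?_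
  rw [mem_Ioc] at hn
  rw [mul_apply]
  have h2 : ∀ x ∈ n.divisorsAntidiagonal, f x.1 * g x.2 = ch n / n * vonMangoldt x.1 := by
    rintro ⟨d, m⟩ hx
    rw [Nat.mem_divisorsAntidiagonal] at hx
    simp only at hx
    change ch d * vonMangoldt d / d * (ch m / m) = ch n / n * vonMangoldt d
    rw [← hx.1, ch_mul]
    push_cast
    have hd : (d : ℝ) ≠ 0 := by
      rintro h0
      have : d = 0 := by exact_mod_cast h0
      apply hx.2; rw [← hx.1, this, zero_mul]
    have hm : (m : ℝ) ≠ 0 := by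
      rintro h0
      have : m = 0 := by exact_mod_cast h0
      apply hx.2; rw [← hx.1, this, mul_zero]
    field_simp
  rw [sum_congr rfl h2, ← mul_sum]
  have h3 : ∑ x ∈ n.divisorsAntidiagonal, vonMangoldt x.1 = Real.log n := by
    rw [← vonMangoldt_sum]
    exact Nat.sum_divisorsAntidiagonal (fun i _ => vonMangoldt i)
  rw [h3]
  ring

lemma psi_nat_le (N : ℕ) : ∑ d ∈ Ioc 0 N, vonMangoldt d ≤ 6 * N := by
  have h := Chebyshev.psi_le_const_mul_self (x := (N : ℝ)) (by positivity)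
  unfold Chebyshev.psi at h
  rw [Nat.floor_natCast] at h
  have h4 : Real.log 4 ≤ 2 := by
    have h1 : Real.log 4 = 2 * Real.log 2 := by
      rw [show (4 : ℝ) = 2 ^ 2 by norm_num, Real.log_pow]; norm_num
    have h2 := Real.log_two_lt_d9
    rw [h1]; linarith
  refine h.trans ?_
  have : (0 : ℝ) ≤ N := by positivity
  nlinarith

/-- `∑_{d ≤ N} ch d Λ d / d` is bounded. -/
lemma abs_sum_ch_Lambda (N : ℕ) : |∑ d ∈ Ioc 0 N, ch d * vonMangoldt d / d| ≤ 42 := by
  obtain ⟨L, hL, hX⟩ := exists_L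
  rcases Nat.eq_zero_or_pos N with h0 | hN
  · subst h0; simp
  have hN' : (0 : ℝ) < N := by exact_mod_cast hN
  have h1 := abs_sum_ch_log N
  rw [conv_identity] at h1
  have h2 : L * ∑ d ∈ Ioc 0 N, ch d * vonMangoldt d / d =
      ∑ d ∈ Ioc 0 N, (ch d * vonMangoldt d / d) * Xs (N / d) -
      ∑ d ∈ Ioc 0 N, (ch d * vonMangoldt d / d) * (Xs (N / d) - L) := by
    rw [mul_sum, ← sum_sub_distrib]
    refine sum_congr rfl fun d _ => ?_
    ring
  have h3 : |∑ d ∈ Ioc 0 N, (ch d * vonMangoldt d / d) * (Xs (N / d) - L)| ≤ 12 := by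
    refine (abs_sum_le_sum_abs _ _).trans ?_
    have h4 : ∀ d ∈ Ioc 0 N, |(ch d * vonMangoldt d / d) * (Xs (N / d) - L)| ≤
        2 / N * vonMangoldt d := by
      intro d hd
      rw [mem_Ioc] at hd
      have hd0 : (0 : ℝ) < d := by exact_mod_cast hd.1
      have hΛ : 0 ≤ vonMangoldt d := vonMangoldt_nonneg
      rw [abs_mul, abs_div, abs_mul, abs_of_nonneg hΛ, abs_of_pos hd0]
      have h5 : |ch d| * vonMangoldt d / d ≤ vonMangoldt d / d := by
        apply div_le_div_of_nonneg_right _ hd0.le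
        have := abs_ch_le d
        nlinarith
      have h6 : |Xs (N / d) - L| ≤ 2 * d / N := by
        refine (hX (N / d)).trans ?_
        rw [div_le_div_iff₀ (by positivity) hN']
        have h7 : N < d * (N / d + 1) := Nat.lt_mul_div_succ N hd.1
        have h8 : (N : ℝ) < d * (((N / d : ℕ) : ℝ) + 1) := by exact_mod_cast h7
        nlinarith
      calc |ch d| * vonMangoldt d / d * |Xs (N / d) - L| ≤ vonMangoldt d / d * (2 * d / N) :=
            mul_le_mul h5 h6 (abs_nonneg _) (by positivity)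
        _ = 2 / N * vonMangoldt d := by field_simp
    refine (sum_le_sum h4).trans ?_
    rw [← mul_sum]
    have h9 := psi_nat_le N
    calc 2 / (N : ℝ) * ∑ d ∈ Ioc 0 N, vonMangoldt d ≤ 2 / N * (6 * N) :=
          mul_le_mul_of_nonneg_left h9 (by positivity)
      _ = 12 := by field_simp; norm_num
  have h4 : |L * ∑ d ∈ Ioc 0 N, ch d * vonMangoldt d / d| ≤ 14 := by
    rw [h2]
    refine (abs_sub _ _).trans ?_
    linarith
  rw [abs_mul, abs_of_pos (by linarith)] at h4
  have h5 := abs_nonneg (∑ d ∈ Ioc 0 N, ch d * vonMangoldt d / d)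
  nlinarith

/-- Mertens' first theorem -/
lemma mertens_lower (N : ℕ) (hN : 0 < N) :
    Real.log N - 1 ≤ ∑ d ∈ Ioc 0 N, vonMangoldt d / d := by
  have hN' : (0 : ℝ) < N := by exact_mod_cast hN
  have h1 := sum_Ioc_mul_zeta_eq_sum vonMangoldt N
  rw [vonMangoldt_mul_zeta] at h1
  have h2 : ∑ n ∈ Ioc 0 N, ArithmeticFunction.log n = Real.log (N.factorial) := by
    clear h1 hN hN'
    induction N with
    | zero => simp
    | succ N ih =>
      rw [sum_Ioc_succ_top (by omega), ih, Nat.factorial_succ, log_apply]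
      push_cast
      rw [Real.log_mul (by positivity) (by positivity)]
      ring
  rw [h2] at h1
  have h3 : ∑ d ∈ Ioc 0 N, vonMangoldt d * ((N / d : ℕ) : ℝ) ≤
      N * ∑ d ∈ Ioc 0 N, vonMangoldt d / d := by
    rw [mul_sum]
    refine sum_le_sum fun d hd => ?_
    have : ((N / d : ℕ) : ℝ) ≤ N / d := Nat.cast_div_le
    calc vonMangoldt d * ((N / d : ℕ) : ℝ) ≤ vonMangoldt d * (N / d) :=
          mul_le_mul_of_nonneg_left this vonMangoldt_nonneg
      _ = N * (vonMangoldt d / d) := by ring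
  have h4 : N * Real.log N - N ≤ Real.log N.factorial := by
    have h5 := Real.pow_div_factorial_le_exp (x := (N : ℝ)) hN'.le N
    have h6 := Real.log_le_log (by positivity) h5
    rw [Real.log_exp, Real.log_div (by positivity) (by positivity), Real.log_pow] at h6
    linarith
  have h5 : N * (Real.log N - 1) ≤ N * ∑ d ∈ Ioc 0 N, vonMangoldt d / d := by
    rw [h1] at h4
    linarith
  exact le_of_mul_le_mul_left h5 hN'

lemma mertens_upper (N : ℕ) (hN : 0 < N) :
    ∑ d ∈ Ioc 0 N, vonMangoldt d / d ≤ Real.log N + 6 := by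
  have hN' : (0 : ℝ) < N := by exact_mod_cast hN
  have h1 := sum_Ioc_mul_zeta_eq_sum vonMangoldt N
  rw [vonMangoldt_mul_zeta] at h1
  have h2 : ∑ n ∈ Ioc 0 N, ArithmeticFunction.log n ≤ N * Real.log N := by
    have : ∀ n ∈ Ioc 0 N, ArithmeticFunction.log n ≤ Real.log N := by
      intro n hn
      rw [mem_Ioc] at hn
      rw [log_apply]
      exact Real.log_le_log (by exact_mod_cast hn.1) (by exact_mod_cast hn.2)
    refine (sum_le_card_nsmul _ _ _ this).trans ?_
    simp
  have h3 : N * ∑ d ∈ Ioc 0 N, vonMangoldt d / d ≤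
      ∑ d ∈ Ioc 0 N, vonMangoldt d * ((N / d : ℕ) : ℝ) + ∑ d ∈ Ioc 0 N, vonMangoldt d := by
    rw [mul_sum, ← sum_add_distrib]
    refine sum_le_sum fun d hd => ?_
    rw [mem_Ioc] at hd
    have hd0 : (0 : ℝ) < d := by exact_mod_cast hd.1
    have h7 : N < d * (N / d + 1) := Nat.lt_mul_div_succ N hd.1
    have h8 : (N : ℝ) < d * (((N / d : ℕ) : ℝ) + 1) := by exact_mod_cast h7
    have h9 : (N : ℝ) / d ≤ ((N / d : ℕ) : ℝ) + 1 := by
      rw [div_le_iff₀ hd0]; linarith
    calc (N : ℝ) * (vonMangoldt d / d) = vonMangoldt d * (N / d) := by ring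
      _ ≤ vonMangoldt d * (((N / d : ℕ) : ℝ) + 1) :=
          mul_le_mul_of_nonneg_left h9 vonMangoldt_nonneg
      _ = _ := by ring
  have h4 := psi_nat_le N
  have h5 : N * ∑ d ∈ Ioc 0 N, vonMangoldt d / d ≤ N * (Real.log N + 6) := by
    rw [← h1] at h3
    linarith
  exact le_of_mul_le_mul_left h5 hN'

/-- the even part -/
lemma even_part (N : ℕ) : ∑ d ∈ Ioc 0 N with d % 2 = 0, vonMangoldt d / d ≤ 2 := by
  have hsub : ∀ d ∈ ({d ∈ Ioc 0 N | d % 2 = 0} : Finset ℕ), vonMangoldt d ≠ 0 →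
      d ∈ (range (N + 1)).image (fun k => 2 ^ (k + 1)) := by
    intro d hd hne
    rw [mem_filter, mem_Ioc] at hd
    rw [vonMangoldt_ne_zero_iff, isPrimePow_nat_iff] at hne
    obtain ⟨p, k, hp, hk, hpk⟩ := hne
    have hp2 : p = 2 := by
      have h2 : 2 ∣ p ^ k := by rw [hpk]; omega
      exact ((Nat.prime_dvd_prime_iff_eq Nat.prime_two hp).1
        (Nat.prime_two.dvd_of_dvd_pow h2)).symm
    subst hp2
    rw [mem_image]
    refine ⟨k - 1, ?_, ?_⟩
    · rw [mem_range]
      have : k < 2 ^ k := Nat.lt_two_pow_self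
      omega
    · rw [← hpk]; congr 1; omega
  have h1 : ∑ d ∈ Ioc 0 N with d % 2 = 0, vonMangoldt d / (d : ℝ) ≤
      ∑ d ∈ (range (N + 1)).image (fun k => 2 ^ (k + 1)), vonMangoldt d / (d : ℝ) := by
    rw [← sum_filter_ne_zero]
    refine sum_le_sum_of_subset_of_nonneg ?_ fun d _ _ => ?_
    · intro d hd
      rw [mem_filter] at hd
      refine hsub d hd.1 ?_
      intro h0
      apply hd.2
      rw [h0, zero_div]
    · exact div_nonneg vonMangoldt_nonneg (by positivity)
  refine h1.trans ?_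
  rw [sum_image (by
    intro a _ b _ hab
    have := Nat.pow_right_injective le_rfl hab
    omega)]
  have h2 : ∀ k ∈ range (N + 1), vonMangoldt (2 ^ (k + 1)) / ((2 ^ (k + 1) : ℕ) : ℝ) ≤
      (1 / 2 : ℝ) ^ k := by
    intro k _
    rw [vonMangoldt_apply_pow (by omega), vonMangoldt_apply_prime Nat.prime_two]
    push_cast
    have h3 := Real.log_two_lt_d9
    have h4 : (0 : ℝ) < 2 ^ k := by positivity
    have e : (1 / 2 : ℝ) ^ k = 2 / 2 ^ (k + 1) := by
      rw [one_div, inv_pow, pow_succ]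
      field_simp
    rw [e]
    apply div_le_div_of_nonneg_right _ (by positivity)
    linarith
  refine (sum_le_sum h2).trans ?_
  have h5 : ∀ M : ℕ, ∑ i ∈ range M, (1 / 2 : ℝ) ^ i = 2 - 2 * (1 / 2) ^ M := by
    intro M
    induction M with
    | zero => simp
    | succ M ih => rw [sum_range_succ, ih, pow_succ]; ring
  rw [h5]
  have : (0 : ℝ) < (1 / 2) ^ (N + 1) := by positivity
  linarith

/-- the mass of the inert integers -/
noncomputable def Vm (N : ℕ) : ℝ := ∑ d ∈ Ioc 0 N with ch d = -1, vonMangoldt d / d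

lemma Vm_eq (N : ℕ) : 2 * Vm N = ∑ d ∈ Ioc 0 N, vonMangoldt d / d -
    ∑ d ∈ Ioc 0 N with d % 2 = 0, vonMangoldt d / d - ∑ d ∈ Ioc 0 N, ch d * vonMangoldt d / d := by
  unfold Vm
  rw [sum_filter, sum_filter, mul_sum, ← sum_sub_distrib, ← sum_sub_distrib]
  refine sum_congr rfl fun d _ => ?_
  rw [ch_eq]
  split_ifs with h1 h2 h3 h4 h5 <;> first | (exfalso; norm_num at *; done) | ring

lemma Vm_lower (N : ℕ) (hN : 0 < N) : Real.log N - 45 ≤ 2 * Vm N := by
  rw [Vm_eq]
  have h1 := mertens_lower N hN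
  have h2 := even_part N
  have h3 := (abs_le.1 (abs_sum_ch_Lambda N)).2
  linarith

lemma Vm_upper (N : ℕ) (hN : 0 < N) : 2 * Vm N ≤ Real.log N + 48 := by
  rw [Vm_eq]
  have h1 := mertens_upper N hN
  have h2 : 0 ≤ ∑ d ∈ Ioc 0 N with d % 2 = 0, vonMangoldt d / (d : ℝ) :=
    sum_nonneg fun d _ => div_nonneg vonMangoldt_nonneg (by positivity)
  have h3 := (abs_le.1 (abs_sum_ch_Lambda N)).1
  linarith

/-- **Chebyshev type lower bound** for the number of primes `p ≡ ± 3` modulo `8`. -/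
theorem inert_count : ∃ c : ℝ, 0 < c ∧ ∃ A x₀ : ℕ, 0 < A ∧ ∀ N : ℕ, x₀ ≤ N →
    c * N / Real.log N ≤ #{p ∈ Ioc (N / A) N | p.Prime ∧ ch p = -1} := by
  obtain ⟨C, hC⟩ := Chebyshev.psi_sub_theta_le_mul_sqrt
  obtain ⟨A, hA1, hlogA⟩ : ∃ A : ℕ, 1 ≤ A ∧ 95 ≤ Real.log A := by
    have h1 : Real.exp 95 ≤ ⌈Real.exp 95⌉₊ := Nat.le_ceil _
    refine ⟨⌈Real.exp 95⌉₊, Nat.one_le_ceil_iff.2 (Real.exp_pos _), ?_⟩
    have h2 := Real.log_le_log (Real.exp_pos _) h1
    rwa [Real.log_exp] at h2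
  have hA0 : (0 : ℝ) < A := by exact_mod_cast hA1
  obtain ⟨x₁, hx₁⟩ : ∃ x₁ : ℕ, ∀ N ≥ x₁, 2 * (A : ℝ) * |C| ≤ √(N : ℝ) := by
    have ht : Filter.Tendsto (fun N : ℕ => √(N : ℝ)) Filter.atTop Filter.atTop :=
      Real.tendsto_sqrt_atTop.comp tendsto_natCast_atTop_atTop
    exact Filter.eventually_atTop.1 (ht.eventually_ge_atTop _)
  refine ⟨1 / (2 * A), by positivity, A, max x₁ (2 * A), by omega, ?_⟩
  intro N hN
  have hN1 : x₁ ≤ N := le_trans (le_max_left _ _) hN
  have hN2 : 2 * A ≤ N := le_trans (le_max_right _ _) hN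
  have hN0 : 0 < N := by omega
  have hNR : (0 : ℝ) < N := by exact_mod_cast hN0
  set N' := N / A with hN'
  have hN'0 : 0 < N' := Nat.div_pos (by omega) (by omega)
  have hN'N : N' ≤ N := Nat.div_le_self _ _
  have hN'R : (0 : ℝ) < N' := by exact_mod_cast hN'0
  have hN'le : (N' : ℝ) ≤ N / A := Nat.cast_div_le
  -- the mass of `(N', N]`
  have hmass : 1 ≤ ∑ d ∈ Ioc N' N with ch d = -1, vonMangoldt d / d := by
    have h1 := Vm_lower N hN0
    have h2 := Vm_upper N' hN'0
    have h3 : Real.log N' ≤ Real.log N - Real.log A := by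
      rw [← Real.log_div (by positivity) (by positivity)]
      exact Real.log_le_log hN'R hN'le
    have h4 : Vm N = Vm N' + ∑ d ∈ Ioc N' N with ch d = -1, vonMangoldt d / d := by
      unfold Vm
      rw [sum_filter, sum_filter, sum_filter]
      exact (sum_Ioc_consecutive _ (Nat.zero_le _) hN'N).symm
    linarith
  have h1 : ∑ d ∈ Ioc N' N with ch d = -1, vonMangoldt d / (d : ℝ) ≤
      A / N * ∑ d ∈ Ioc N' N with ch d = -1, vonMangoldt d := by
    rw [mul_sum]
    refine sum_le_sum fun d hd => ?_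
    rw [mem_filter, mem_Ioc] at hd
    have hd0 : (0 : ℝ) < d := by exact_mod_cast (by omega : 0 < d)
    have h2 : N < A * d := by
      have h3 : A * (N' + 1) ≤ A * d := Nat.mul_le_mul_left _ (by omega)
      exact lt_of_lt_of_le (Nat.lt_mul_div_succ N (show 0 < A by omega)) h3
    have h3 : (N : ℝ) < A * d := by exact_mod_cast h2
    have h4 : 1 / (d : ℝ) ≤ A / N := by
      rw [div_le_div_iff₀ hd0 hNR]
      linarith
    calc vonMangoldt d / (d : ℝ) = 1 / d * vonMangoldt d := by ring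
      _ ≤ A / N * vonMangoldt d := mul_le_mul_of_nonneg_right h4 vonMangoldt_nonneg
  have h2 : (N : ℝ) / A ≤ ∑ d ∈ Ioc N' N with ch d = -1, vonMangoldt d := by
    have h3 := hmass.trans h1
    rw [div_le_iff₀ hA0]
    have h4 : (A : ℝ) / N * (∑ d ∈ Ioc N' N with ch d = -1, vonMangoldt d) * N =
        (∑ d ∈ Ioc N' N with ch d = -1, vonMangoldt d) * A := by
      field_simp
    rw [← h4]
    calc (N : ℝ) = 1 * N := (one_mul _).symm
      _ ≤ _ := mul_le_mul_of_nonneg_right h3 hNR.le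
  -- remove the prime powers
  have h3 : ∑ d ∈ Ioc N' N with ch d = -1, vonMangoldt d ≤
      ∑ d ∈ Ioc N' N with d.Prime ∧ ch d = -1, Real.log N +
      ∑ d ∈ Ioc 0 N with ¬ d.Prime, vonMangoldt d := by
    have hsub : ∑ d ∈ Ioc N' N with ¬ d.Prime, vonMangoldt d ≤
        ∑ d ∈ Ioc 0 N with ¬ d.Prime, vonMangoldt d := by
      refine sum_le_sum_of_subset_of_nonneg (filter_subset_filter _
        (Ioc_subset_Ioc_left (Nat.zero_le _))) fun d _ _ => vonMangoldt_nonneg
    refine le_trans ?_ (add_le_add_right hsub _)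
    rw [sum_filter, sum_filter, sum_filter, ← sum_add_distrib]
    refine sum_le_sum fun d hd => ?_
    rw [mem_Ioc] at hd
    have hd0 : 0 < d := by omega
    have hlog : Real.log d ≤ Real.log N :=
      Real.log_le_log (by exact_mod_cast hd0) (by exact_mod_cast hd.2)
    have hΛ : 0 ≤ vonMangoldt d := vonMangoldt_nonneg
    by_cases hp : d.Prime
    · by_cases hc : ch d = -1
      · simp only [hc, hp, and_self, if_true, not_true, if_false, add_zero]
        rw [vonMangoldt_apply_prime hp]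
        exact hlog
      · simp [hc, hp]
    · by_cases hc : ch d = -1
      · simp [hc, hp]
      · simp [hc, hp]
  have h4 : ∑ d ∈ Ioc 0 N with ¬ d.Prime, vonMangoldt d ≤ C * √(N : ℝ) := by
    have h5 := hC N
    rw [Chebyshev.psi_sub_theta_eq_sum_not_prime, Nat.floor_natCast] at h5
    exact h5
  have h5 : C * √(N : ℝ) ≤ N / (2 * A) := by
    have h6 := hx₁ N hN1
    have h7 : √(N : ℝ) * √(N : ℝ) = N := Real.mul_self_sqrt hNR.le
    have h8 : 0 ≤ √(N : ℝ) := Real.sqrt_nonneg _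
    rw [le_div_iff₀ (by positivity)]
    have h9 : C ≤ |C| := le_abs_self C
    calc C * √(N : ℝ) * (2 * A) ≤ |C| * √(N : ℝ) * (2 * A) := by
          apply mul_le_mul_of_nonneg_right _ (by positivity)
          exact mul_le_mul_of_nonneg_right h9 h8
      _ = (2 * A * |C|) * √(N : ℝ) := by ring
      _ ≤ √(N : ℝ) * √(N : ℝ) := mul_le_mul_of_nonneg_right h6 h8
      _ = N := h7
  rw [sum_const, nsmul_eq_mul] at h3
  have hlogN : 0 < Real.log N := Real.log_pos (by exact_mod_cast (by omega : 1 < N))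
  rw [div_le_iff₀ hlogN]
  have h6 : (N : ℝ) / A = N / (2 * A) + N / (2 * A) := by field_simp; ring
  have h7 : 1 / (2 * (A : ℝ)) * N = N / (2 * A) := by ring
  rw [h7]
  linarith

end Pool.Agent.DigitChanges
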