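import Pool.Agent.Lib.DigitChanges.Digits
import Pool.Agent.Lib.DigitChanges.Core
import Pool.Agent.Lib.DigitChanges.InertPrimes

/-!
# Digit changes of `√2` in all bases
-/

open Finset PowerSeries Filter

namespace Pool.Agent.DigitChanges

lemma ev_exp (C : ℝ) (n : ℕ) : ∀ᶠ x : ℝ in atTop, C * x ^ n ≤ Real.exp (x / 32) := by
  have h1 : Tendsto (fun x : ℝ => Real.exp (x / 32) / (x / 32) ^ n) atTop atTop :=
    (Real.tendsto_exp_div_pow_atTop n).comp (tendsto_id.atTop_div_const (by norm_num))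
  filter_upwards [h1.eventually_ge_atTop (C * 32 ^ n), eventually_gt_atTop 0] with x hx hx0
  rw [le_div_iff₀ (by positivity)] at hx
  refine le_trans (le_of_eq ?_) hx
  rw [div_pow]
  field_simp

lemma ev_log (C : ℝ) (n : ℕ) : ∀ᶠ x : ℝ in atTop, C * Real.log x ^ n ≤ x := by
  have h1 : (fun x : ℝ => Real.log x ^ n) =o[atTop] (id : ℝ → ℝ) := Real.isLittleO_pow_log_id_atTop
  have h2 := h1.bound (c := 1 / (|C| + 1)) (by positivity)
  filter_upwards [h2, eventually_gt_atTop 1] with x hx hx0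
  have hl : 0 < Real.log x := Real.log_pos hx0
  rw [Real.norm_of_nonneg (by positivity), id, Real.norm_of_nonneg (by linarith)] at hx
  have h3 : C * Real.log x ^ n ≤ (|C| + 1) * Real.log x ^ n := by
    apply mul_le_mul_of_nonneg_right _ (by positivity)
    have := le_abs_self C
    linarith
  refine h3.trans ?_
  calc (|C| + 1) * Real.log x ^ n ≤ (|C| + 1) * (1 / (|C| + 1) * x) :=
        mul_le_mul_of_nonneg_left hx (by positivity)
    _ = x := by field_simp

lemma adm_of_prime (b l p : ℕ) (hb : 2 ≤ b) (hp : p.Prime) (hpb : b ^ l < p) (hl : 1 ≤ l)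
    (hc : ch p = -1) : Adm b l p := by
  have : Fact p.Prime := ⟨hp⟩
  have hbl : b ≤ b ^ l := Nat.le_self_pow (by omega) b
  have hp2 : p ≠ 2 := by omega
  have hp3 : 3 ≤ p := by have := hp.two_le; omega
  refine ⟨hp, hp3, ?_, ?_⟩
  · intro h
    have := Nat.le_of_dvd (by omega) h
    omega
  · have h1 : (2 : ZMod p) ^ ((p - 1) / 2) = -1 := by
      have h2 := FiniteField.two_pow_card (F := ZMod p) (by rw [ZMod.ringChar_zmod_n]; exact hp2)
      rw [ZMod.card] at h2
      have h3 : (p - 1) / 2 = p / 2 := by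
        have := hp.eq_two_or_odd
        omega
      rw [h3, h2]
      have h4 : ZMod.χ₈ (p : ZMod 8) = -1 := by
        unfold ch at hc
        exact_mod_cast hc
      rw [h4]
      simp
    have h2 : (((b : ℤ) ^ l - 1 : ℤ) : ZMod p) ≠ 0 := by
      have e : ((b : ℤ) ^ l - 1 : ℤ) = ((b ^ l - 1 : ℕ) : ℤ) := by
        rw [Nat.cast_sub (Nat.one_le_pow _ _ (by omega))]
        push_cast
        ring
      rw [e, Int.cast_natCast, Ne, ZMod.natCast_eq_zero_iff]
      intro h
      have := Nat.le_of_dvd (by omega) h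
      omega
    have h3 : ((((b : ℤ) ^ l - 1) ^ 2 : ℤ) : ZMod p) ^ ((p - 1) / 2) = 1 := by
      rw [Int.cast_pow, ← pow_mul]
      have : 2 * ((p - 1) / 2) = p - 1 := by
        have := hp.eq_two_or_odd
        omega
      rw [this]
      exact ZMod.pow_card_sub_one_eq_one h2
    rw [Int.cast_mul, mul_pow, h3, mul_one]
    exact_mod_cast h1

/-- the lower bound for the size of the support of `F` -/
theorem support_bound (b l : ℕ) (hb : 2 ≤ b) (hl : 1 ≤ l) :
    ∃ c : ℝ, 0 < c ∧ ∀ᶠ N : ℕ in atTop,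
      c * Real.log N ^ 2 / Real.log (Real.log N) ^ 3 ≤ sc (Fs b l) (N + 1) := by
  obtain ⟨c₀, hc₀, A, x₀, hA, hcount⟩ := inert_count
  set c₁ : ℝ := c₀ / 128 with hc₁
  have hc₁0 : 0 < c₁ := by positivity
  set c₂ : ℝ := min (c₁ / 72) 1 with hc₂
  have hc₂0 : 0 < c₂ := lt_min (by positivity) one_pos
  refine ⟨c₂, hc₂0, ?_⟩
  have htend : Tendsto (fun N : ℕ => Real.log (N : ℝ)) atTop atTop :=
    Real.tendsto_log_atTop.comp tendsto_natCast_atTop_atTop
  have e1 := htend.eventually (ev_exp (36 * (b : ℝ) ^ (2 * l + 2) + 6) 5)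
  have e2 := htend.eventually (eventually_ge_atTop (72 : ℝ))
  have hloglog : Tendsto (fun N : ℕ => Real.log (Real.log (N : ℝ))) atTop atTop :=
    Real.tendsto_log_atTop.comp htend
  have e3 := hloglog.eventually (eventually_ge_atTop (max 1 (36 * c₁)))
  have e4 := htend.eventually (ev_log (128 * (x₀ + A * (b : ℝ) ^ l + A + 2)) 1)
  have e5 := htend.eventually (ev_log (2 / c₁) 2)
  have e6 := htend.eventually (ev_log 36 1)
  filter_upwards [e1, e2, e3, e4, e5, e6, eventually_ge_atTop 2] with N h1 h2 h3 h4 h5 h6 hN2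
  set x : ℝ := Real.log N with hx
  set y : ℝ := Real.log x with hy
  have hNR : (0 : ℝ) < N := by exact_mod_cast (by omega : 0 < N)
  have hx1 : 1 ≤ x := by linarith
  have hx0 : 0 < x := by linarith
  have hy1 : 1 ≤ y := le_trans (le_max_left _ _) h3
  have hyc : 36 * c₁ ≤ y := le_trans (le_max_right _ _) h3
  have hy0 : 0 < y := by linarith
  set M := sc (Fs b l) (N + 1) with hM
  by_cases hMx : x ^ 2 < M
  · -- many changes
    have h7 : c₂ * x ^ 2 / y ^ 3 ≤ x ^ 2 := by
      rw [div_le_iff₀ (by positivity)]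
      have h8 : c₂ ≤ 1 := min_le_right _ _
      have h9 : 1 ≤ y ^ 3 := one_le_pow₀ hy1
      have h10 : 0 ≤ x ^ 2 := by positivity
      nlinarith
    linarith
  push Not at hMx
  -- parameters
  set H : ℕ := ⌊Real.exp (x / 8)⌋₊ with hH
  set P0 : ℕ := ⌊x / (64 * y)⌋₊ with hP0
  set n : ℕ := ⌊x / (9 * y)⌋₊ with hn
  set k : ℕ := ⌊c₁ * x / y ^ 2⌋₊ with hk
  have hHlow : Real.exp (x / 8) - 1 < H := Nat.sub_one_lt_floor _
  have hHup : (H : ℝ) ≤ Real.exp (x / 8) := Nat.floor_le (Real.exp_pos _).le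
  have hP0up : (P0 : ℝ) ≤ x / (64 * y) := Nat.floor_le (by positivity)
  have hP0low : x / (64 * y) - 1 < P0 := Nat.sub_one_lt_floor _
  have hnup : (n : ℝ) ≤ x / (9 * y) := Nat.floor_le (by positivity)
  have hnlow : x / (9 * y) - 1 < n := Nat.sub_one_lt_floor _
  have hkup : (k : ℝ) ≤ c₁ * x / y ^ 2 := Nat.floor_le (by positivity)
  have hklow : c₁ * x / y ^ 2 - 1 < k := Nat.sub_one_lt_floor _
  -- `P0 ≤ x`
  have hP0x : (P0 : ℝ) ≤ x := by
    refine hP0up.trans ?_
    rw [div_le_iff₀ (by positivity)]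
    nlinarith
  -- basic exponential bounds
  have hexp32 : 36 * (b : ℝ) ^ (2 * l + 2) * x ^ 5 + 6 ≤ Real.exp (x / 32) := by
    have h7 : 1 ≤ x ^ 5 := one_le_pow₀ hx1
    nlinarith
  have hx5 : x ^ 2 ≤ x ^ 5 := pow_le_pow_right₀ hx1 (by norm_num)
  have hB1 : (1 : ℝ) ≤ (b : ℝ) ^ (2 * l + 2) :=
    one_le_pow₀ (by exact_mod_cast (by omega : 1 ≤ b))
  have hexp8 : Real.exp (x / 32) ≤ Real.exp (x / 8) := Real.exp_le_exp.2 (by linarith)
  have hx2H : x ^ 2 + 4 ≤ Real.exp (x / 8) := by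
    refine le_trans ?_ (hexp32.trans hexp8)
    have : x ^ 5 ≤ 36 * (b : ℝ) ^ (2 * l + 2) * x ^ 5 := by
      have h7 : (0 : ℝ) ≤ x ^ 5 := by positivity
      nlinarith
    linarith
  -- (a)
  have ca : 2 ≤ H := by
    have : (2 : ℝ) ≤ H := by nlinarith
    exact_mod_cast this
  have ca' : H ^ 8 ≤ N := by
    have h7 : (H : ℝ) ^ 8 ≤ Real.exp (x / 8) ^ 8 := pow_le_pow_left₀ (by positivity) hHup 8
    rw [← Real.exp_nat_mul, show ((8 : ℕ) : ℝ) * (x / 8) = x by push_cast; ring, hx,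
      Real.exp_log hNR] at h7
    exact_mod_cast h7
  -- (b)
  have cb : P0 ^ 2 ≤ H := by
    have h7 : (P0 : ℝ) ^ 2 ≤ x ^ 2 := pow_le_pow_left₀ (by positivity) hP0x 2
    have h8 : ((P0 ^ 2 : ℕ) : ℝ) ≤ H := by push_cast; linarith
    exact_mod_cast h8
  -- (c)
  have cc : M + 3 ≤ H := by
    have h8 : ((M + 3 : ℕ) : ℝ) ≤ H := by push_cast; linarith
    exact_mod_cast h8
  -- (d)
  have cd : P0 * (36 * b ^ (2 * l + 2) * M ^ 2) * M ^ P0 + 1 ≤ H := by
    have h7 : (M : ℝ) ^ P0 ≤ Real.exp (x / 32) := by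
      calc (M : ℝ) ^ P0 ≤ (x ^ 2) ^ P0 := pow_le_pow_left₀ (by positivity) hMx _
        _ = Real.exp (2 * P0 * y) := by
            rw [← pow_mul, ← Real.rpow_natCast, Real.rpow_def_of_pos hx0]
            congr 1
            push_cast
            ring
        _ ≤ Real.exp (x / 32) := by
            apply Real.exp_le_exp.2
            rw [le_div_iff₀ (by positivity)] at hP0up
            nlinarith
    have h8 : (P0 : ℝ) * (36 * (b : ℝ) ^ (2 * l + 2) * (M : ℝ) ^ 2) ≤
        36 * (b : ℝ) ^ (2 * l + 2) * x ^ 5 := by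
      have h9 : (M : ℝ) ^ 2 ≤ (x ^ 2) ^ 2 := pow_le_pow_left₀ (by positivity) hMx 2
      calc (P0 : ℝ) * (36 * (b : ℝ) ^ (2 * l + 2) * (M : ℝ) ^ 2) ≤
          x * (36 * (b : ℝ) ^ (2 * l + 2) * (x ^ 2) ^ 2) := by
            apply mul_le_mul hP0x _ (by positivity) hx0.le
            exact mul_le_mul_of_nonneg_left h9 (by positivity)
        _ = _ := by ring
    have h9 : (P0 : ℝ) * (36 * (b : ℝ) ^ (2 * l + 2) * (M : ℝ) ^ 2) * (M : ℝ) ^ P0 ≤
        (36 * (b : ℝ) ^ (2 * l + 2) * x ^ 5) * Real.exp (x / 32) :=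
      mul_le_mul h8 h7 (by positivity) (by positivity)
    have h10 : Real.exp (x / 32) * Real.exp (x / 32) ≤ Real.exp (x / 8) := by
      rw [← Real.exp_add]
      exact Real.exp_le_exp.2 (by linarith)
    have h11 : 1 ≤ Real.exp (x / 32) := Real.one_le_exp (by positivity)
    have h12 : ((P0 * (36 * b ^ (2 * l + 2) * M ^ 2) * M ^ P0 + 1 : ℕ) : ℝ) ≤ H := by
      push_cast
      nlinarith
    exact_mod_cast h12
  -- (e)
  have ce : P0 ^ n ≤ H := by
    have h7 : (P0 : ℝ) ^ n ≤ Real.exp (x / 9) := by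
      calc (P0 : ℝ) ^ n ≤ x ^ n := pow_le_pow_left₀ (by positivity) hP0x _
        _ = Real.exp (n * y) := by
            rw [← Real.rpow_natCast, Real.rpow_def_of_pos hx0]
            congr 1
            ring
        _ ≤ Real.exp (x / 9) := by
            apply Real.exp_le_exp.2
            rw [le_div_iff₀ (by positivity)] at hnup
            linarith
    have h8 : Real.exp (x / 9) + 1 ≤ Real.exp (x / 8) := by
      have e : Real.exp (x / 8) = Real.exp (x / 9) * Real.exp (x / 72) := by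
        rw [← Real.exp_add]; congr 1; ring
      have h9 : x / 72 + 1 ≤ Real.exp (x / 72) := Real.add_one_le_exp _
      have h10 : 1 ≤ Real.exp (x / 9) := Real.one_le_exp (by positivity)
      rw [e]
      nlinarith
    have h9 : ((P0 ^ n : ℕ) : ℝ) ≤ H := by push_cast; linarith
    exact_mod_cast h9
  -- (f) the primes
  have hP0big : (x₀ : ℝ) + A * (b : ℝ) ^ l + A ≤ P0 := by
    have h7 : 128 * ((x₀ : ℝ) + A * (b : ℝ) ^ l + A + 2) * y ≤ x := by
      rw [pow_one] at h4; exact h4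
    have h8 : 2 * ((x₀ : ℝ) + A * (b : ℝ) ^ l + A + 2) ≤ x / (64 * y) := by
      rw [le_div_iff₀ (by positivity)]; linarith
    have h9 : (0 : ℝ) ≤ (x₀ : ℝ) + A * (b : ℝ) ^ l + A := by positivity
    linarith
  have hP0nat : x₀ + A * b ^ l + A ≤ P0 := by exact_mod_cast hP0big
  have hcnt := hcount P0 (by omega)
  set PP : Finset ℕ := {p ∈ Ioc (P0 / A) P0 | p.Prime ∧ ch p = -1} with hPP
  have hAdm : ∀ p ∈ PP, Adm b l p := by
    intro p hp
    rw [hPP, mem_filter, mem_Ioc] at hp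
    refine adm_of_prime b l p hb hp.2.1 ?_ hl hp.2.2
    have h7 : b ^ l ≤ P0 / A := by
      rw [Nat.le_div_iff_mul_le hA, mul_comm]
      omega
    omega
  have hkPP : k ≤ #PP := by
    have h7 : (k : ℝ) ≤ #PP := by
      refine hkup.trans (le_trans ?_ hcnt)
      have hP02 : 2 ≤ P0 := by
        have : 1 ≤ A * b ^ l := Nat.mul_pos hA (pow_pos (by omega) l)
        omega
      have hlogP0 : 0 < Real.log P0 := Real.log_pos (by exact_mod_cast (by omega : 1 < P0))
      have hlogP0y : Real.log P0 ≤ y := Real.log_le_log (by exact_mod_cast (by omega : 0 < P0)) hP0x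
      have hP0half : x / (128 * y) ≤ P0 := by
        have h8 : 2 ≤ x / (64 * y) := by
          rw [le_div_iff₀ (by positivity)]
          have h9 : (0 : ℝ) ≤ (x₀ : ℝ) + A * (b : ℝ) ^ l + A := by positivity
          rw [pow_one] at h4
          nlinarith
        have e : x / (128 * y) = x / (64 * y) / 2 := by field_simp; norm_num
        rw [e]
        linarith
      rw [div_le_div_iff₀ (by positivity) hlogP0]
      calc c₁ * x * Real.log P0 ≤ c₁ * x * y := mul_le_mul_of_nonneg_left hlogP0y (by positivity)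
        _ = c₀ * (x / (128 * y)) * y ^ 2 := by rw [hc₁]; field_simp
        _ ≤ c₀ * P0 * y ^ 2 := by
            apply mul_le_mul_of_nonneg_right _ (by positivity)
            exact mul_le_mul_of_nonneg_left hP0half hc₀.le
    exact_mod_cast h7
  obtain ⟨Q, hQP, hQk⟩ := exists_subset_card_eq hkPP
  have hmain := main_ineq b l hb hl N H P0 n Q (fun p hp => hAdm p (hQP hp))
    (fun p hp => by
      have := hQP hp
      rw [hPP, mem_filter, mem_Ioc] at this
      exact this.1.2) ca ca' cb ce cc cd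
  rw [hQk] at hmain
  -- `k ≤ n / 2`
  have hy2x : 36 * y ≤ x := by rw [pow_one] at h6; exact h6
  have hkn : 2 * k ≤ n := by
    have h7 : (k : ℝ) ≤ x / (36 * y) := by
      refine hkup.trans ?_
      rw [div_le_div_iff₀ (by positivity) (by positivity)]
      have : 0 ≤ x * y := by positivity
      nlinarith
    have h8 : 1 ≤ x / (36 * y) := by
      rw [le_div_iff₀ (by positivity)]; linarith
    have e : x / (9 * y) = 4 * (x / (36 * y)) := by field_simp; norm_num
    have h9 : ((2 * k : ℕ) : ℝ) ≤ n := by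
      push_cast
      rw [e] at hnlow
      linarith
    exact_mod_cast h9
  have hkn2 : k * n ≤ 2 * M := by
    have h7 : 2 * (k * k) ≤ k * n := by
      calc 2 * (k * k) = k * (2 * k) := by ring
        _ ≤ k * n := Nat.mul_le_mul_left _ hkn
    omega
  have hklow2 : c₁ * x / (2 * y ^ 2) ≤ k := by
    have h7 : 2 ≤ c₁ * x / y ^ 2 := by
      rw [le_div_iff₀ (by positivity)]
      rw [div_mul_eq_mul_div, div_le_iff₀ hc₁0] at h5
      linarith
    have e : c₁ * x / (2 * y ^ 2) = c₁ * x / y ^ 2 / 2 := by field_simp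
    rw [e]
    linarith
  have hnlow2 : x / (18 * y) ≤ n := by
    have h8 : 2 ≤ x / (9 * y) := by
      rw [le_div_iff₀ (by positivity)]; linarith
    have e : x / (18 * y) = x / (9 * y) / 2 := by field_simp; norm_num
    rw [e]
    linarith
  have h7 : c₁ * x / (2 * y ^ 2) * (x / (18 * y)) ≤ 2 * M := by
    calc c₁ * x / (2 * y ^ 2) * (x / (18 * y)) ≤ k * n :=
          mul_le_mul hklow2 hnlow2 (by positivity) (by positivity)
      _ ≤ 2 * M := by exact_mod_cast hkn2
  have h8 : c₂ * x ^ 2 / y ^ 3 ≤ (c₁ * x / (2 * y ^ 2) * (x / (18 * y))) / 2 := by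
    have h9 : c₂ ≤ c₁ / 72 := min_le_left _ _
    have e : (c₁ * x / (2 * y ^ 2) * (x / (18 * y))) / 2 = (c₁ / 72) * x ^ 2 / y ^ 3 := by
      field_simp; norm_num
    rw [e]
    apply div_le_div_of_nonneg_right _ (by positivity)
    exact mul_le_mul_of_nonneg_right h9 (by positivity)
  linarith

theorem all_bases (b l : ℕ) (hb : 2 ≤ b) (hl : 1 ≤ l) :
    ∃ c : ℝ, 0 < c ∧ ∃ N₀ : ℕ, ∀ N : ℕ, N₀ ≤ N →
      c * Real.log N ^ 2 / Real.log (Real.log N) ^ 3 ≤ cnt b l N := by
  obtain ⟨c, hc, hev⟩ := support_bound b l hb hl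
  have htend : Tendsto (fun N : ℕ => Real.log (N : ℝ)) atTop atTop :=
    Real.tendsto_log_atTop.comp tendsto_natCast_atTop_atTop
  have hloglog : Tendsto (fun N : ℕ => Real.log (Real.log (N : ℝ))) atTop atTop :=
    Real.tendsto_log_atTop.comp htend
  have e1 := htend.eventually (ev_log (2 * (l + 1) / c) 3)
  have e2 := htend.eventually (eventually_ge_atTop (1 : ℝ))
  have e3 := hloglog.eventually (eventually_ge_atTop (1 : ℝ))
  have hev2 := hev.and (e1.and (e2.and e3))
  rw [eventually_atTop] at hev2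
  obtain ⟨N₀, hN₀⟩ := hev2
  refine ⟨c / 2, by positivity, N₀, fun N hN => ?_⟩
  obtain ⟨h1, h2, h3, h4⟩ := hN₀ N hN
  have h5 := sc_Fs_le_cnt b l N (by omega)
  have h6 : (sc (Fs b l) (N + 1) : ℝ) ≤ l + 1 + cnt b l N := by exact_mod_cast h5
  set x : ℝ := Real.log N
  set y : ℝ := Real.log x
  have hy0 : 0 < y := by linarith
  have hx0 : 0 < x := by linarith
  have h7 : (l : ℝ) + 1 ≤ c / 2 * x ^ 2 / y ^ 3 := by
    rw [le_div_iff₀ (by positivity)]
    rw [div_mul_eq_mul_div, div_le_iff₀ hc] at h2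
    have h8 : x ≤ x ^ 2 := by nlinarith
    nlinarith
  have e : c * x ^ 2 / y ^ 3 = c / 2 * x ^ 2 / y ^ 3 + c / 2 * x ^ 2 / y ^ 3 := by ring
  rw [e] at h1
  linarith

end Pool.Agent.DigitChanges
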