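import Pool.Agent.Lib.DigitChanges.Analytic

/-!
# Digits of `√2` and the support of `F`
-/

open Finset PowerSeries

namespace Pool.Agent.DigitChanges

lemma floor_mul_sub (b : ℕ) (hb : 1 ≤ b) (x : ℝ) :
    ⌊(b : ℝ) * x⌋ - b * ⌊x⌋ = ⌊(b : ℝ) * x⌋ % b := by
  have hb0 : (0 : ℝ) < b := by exact_mod_cast hb
  have h1 := Int.floor_le x
  have h2 := Int.lt_floor_add_one x
  have h3 : (b : ℤ) * ⌊x⌋ ≤ ⌊(b : ℝ) * x⌋ := by
    rw [Int.le_floor]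
    push_cast
    exact mul_le_mul_of_nonneg_left h1 hb0.le
  have h4 : ⌊(b : ℝ) * x⌋ < (b : ℤ) * ⌊x⌋ + b := by
    rw [Int.floor_lt]
    push_cast
    nlinarith
  have h5 : (⌊(b : ℝ) * x⌋ - b * ⌊x⌋) % (b : ℤ) = ⌊(b : ℝ) * x⌋ % b := by
    exact Int.sub_mul_emod_self_left ..
  rw [← h5, Int.emod_eq_of_lt (by linarith) (by linarith)]

lemma digit_nat_int (b k : ℕ) :
    ((⌊(b : ℝ) ^ k * √2⌋₊ % b : ℕ) : ℤ) = ⌊(b : ℝ) ^ k * √2⌋ % b := by
  have : (0 : ℝ) ≤ (b : ℝ) ^ k * √2 := by positivity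
  rw [Int.natCast_mod, Int.natCast_floor_eq_floor this]

/-- For `k ≥ 1`: `f_{k+ℓ} = b^ℓ (a_{k+ℓ} - a_k)`. -/
lemma coeff_Fs_add (b l k : ℕ) (hb : 1 ≤ b) (hk : 1 ≤ k) :
    coeff (k + l) (Fs b l) =
      (b : ℤ) ^ l * (((⌊(b : ℝ) ^ (k + l) * √2⌋₊ % b : ℕ) : ℤ) -
        ((⌊(b : ℝ) ^ k * √2⌋₊ % b : ℕ) : ℤ)) := by
  obtain ⟨k, rfl⟩ : ∃ m, k = m + 1 := ⟨k - 1, by omega⟩
  have e : k + 1 + l = (k + l) + 1 := by ring
  rw [digit_nat_int, digit_nat_int, e, Fs, coeff_K_mul_succ, coeff_Gs, coeff_Gs,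
    if_pos (by omega), if_pos (by omega), show k + l + 1 - l = k + 1 by omega,
    show k + l - l = k by omega]
  have h1 := floor_mul_sub b hb ((b : ℝ) ^ (k + l) * √2)
  have h2 := floor_mul_sub b hb ((b : ℝ) ^ k * √2)
  rw [← mul_assoc, ← pow_succ'] at h1 h2
  rw [← h1, ← h2]
  ring

/-- The number of indices `1 ≤ k ≤ N` with `a_{k+ℓ} ≠ a_k`, `a_k` the `k`-th digit of `√2`
in base `b`. -/
noncomputable def cnt (b l N : ℕ) : ℕ :=
  #{k ∈ Icc 1 N | ⌊(b : ℝ) ^ (k + l) * √2⌋₊ % b ≠ ⌊(b : ℝ) ^ k * √2⌋₊ % b}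

lemma sc_Fs_le_cnt (b l N : ℕ) (hb : 1 ≤ b) : sc (Fs b l) (N + 1) ≤ (l + 1) + cnt b l N := by
  unfold sc cnt
  have hsub : ({k ∈ range (N + 1) | coeff k (Fs b l) ≠ 0} : Finset ℕ) ⊆
      range (l + 1) ∪ ({k ∈ Icc 1 N | ⌊(b : ℝ) ^ (k + l) * √2⌋₊ % b ≠
        ⌊(b : ℝ) ^ k * √2⌋₊ % b}).image (fun k => k + l) := by
    intro k hk
    simp only [mem_filter, mem_range] at hk
    simp only [mem_union, mem_range, mem_image, mem_filter, mem_Icc]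
    by_cases h : k < l + 1
    · left; exact h
    · right
      refine ⟨k - l, ⟨by omega, ?_⟩, by omega⟩
      intro heq
      apply hk.2
      have := coeff_Fs_add b l (k - l) hb (by omega)
      rw [show k - l + l = k by omega] at this heq
      rw [this, heq, sub_self, mul_zero]
  refine (card_le_card hsub).trans ((card_union_le _ _).trans ?_)
  rw [card_range]
  exact Nat.add_le_add_left card_image_le _

end Pool.Agent.DigitChanges
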