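import Pool.Agent.Lib.DigitChanges.Basic

/-!
# The analytic input: `T = D E - F G` is sparse for `√2`
-/

open Finset PowerSeries

namespace Pool.Agent.DigitChanges

/-- the integer parts `⌊b^k √2⌋` -/
noncomputable def Ps (b : ℕ) : PowerSeries ℤ := PowerSeries.mk fun k => ⌊(b : ℝ) ^ k * √2⌋

/-- `G = b^ℓ (1 - X^ℓ) P` -/
noncomputable def Gs (b l : ℕ) : PowerSeries ℤ := C ((b : ℤ) ^ l) * ((1 - X ^ l) * Ps b)

/-- `F = (1 - bX) G`: the series of (scaled) digit changes -/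
noncomputable def Fs (b l : ℕ) : PowerSeries ℤ := K (b : ℤ) * Gs b l

/-- `T = D E - F G` with `D = 2 (b^ℓ - 1)^2` -/
noncomputable def Ts (b l : ℕ) : PowerSeries ℤ :=
  C (2 * ((b : ℤ) ^ l - 1) ^ 2) * E (b : ℤ) - Fs b l * Gs b l

/-- `δ_k = b^k α - G_k` with `α = (b^ℓ - 1) √2`. -/
noncomputable def del (b l k : ℕ) : ℝ :=
  (b : ℝ) ^ k * (((b : ℝ) ^ l - 1) * √2) - (coeff k (Gs b l) : ℤ)

lemma coeff_Gs (b l k : ℕ) : coeff k (Gs b l) =
    (b : ℤ) ^ l * (⌊(b : ℝ) ^ k * √2⌋ - if l ≤ k then ⌊(b : ℝ) ^ (k - l) * √2⌋ else 0) := by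
  rw [Gs, coeff_C_mul, sub_mul, one_mul, map_sub, coeff_X_pow_mul', Ps, coeff_mk, coeff_mk]

lemma sqrt2_lt_two : √2 < 2 := by
  rw [Real.sqrt_lt' (by norm_num)]; norm_num

lemma one_lt_sqrt2 : 1 < √2 := by
  rw [Real.lt_sqrt (by norm_num)]; norm_num

lemma abs_del_le (b l k : ℕ) (hb : 2 ≤ b) : |del b l k| ≤ 2 * (b : ℝ) ^ l := by
  have hb0 : (0 : ℝ) < (b : ℝ) ^ l := by positivity
  have h1 := sqrt2_lt_two
  have h2 := one_lt_sqrt2
  unfold del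
  rw [coeff_Gs]
  have e1 := Int.floor_le ((b : ℝ) ^ k * √2)
  have e2 := Int.lt_floor_add_one ((b : ℝ) ^ k * √2)
  split_ifs with h
  · have e3 := Int.floor_le ((b : ℝ) ^ (k - l) * √2)
    have e4 := Int.lt_floor_add_one ((b : ℝ) ^ (k - l) * √2)
    have hk : (b : ℝ) ^ k = (b : ℝ) ^ l * (b : ℝ) ^ (k - l) := by
      rw [← pow_add, Nat.add_sub_cancel' h]
    push_cast
    have : (b : ℝ) ^ k * (((b : ℝ) ^ l - 1) * √2) -
        (b : ℝ) ^ l * ((⌊(b : ℝ) ^ k * √2⌋ : ℝ) - (⌊(b : ℝ) ^ (k - l) * √2⌋ : ℝ)) =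
        (b : ℝ) ^ l * (((b : ℝ) ^ k * √2 - ⌊(b : ℝ) ^ k * √2⌋) -
          ((b : ℝ) ^ (k - l) * √2 - ⌊(b : ℝ) ^ (k - l) * √2⌋)) := by
      rw [hk]; ring
    rw [this, abs_mul, abs_of_pos hb0]
    have : |((b : ℝ) ^ k * √2 - ⌊(b : ℝ) ^ k * √2⌋) -
          ((b : ℝ) ^ (k - l) * √2 - ⌊(b : ℝ) ^ (k - l) * √2⌋)| ≤ 2 := by
      rw [abs_le]; constructor <;> linarith
    nlinarith
  · push_cast
    rw [sub_zero]
    have hk : (b : ℝ) ^ k ≤ (b : ℝ) ^ l :=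
      pow_le_pow_right₀ (by exact_mod_cast (by omega : 1 ≤ b)) (by omega)
    have hk0 : (0 : ℝ) < (b : ℝ) ^ k := by positivity
    have : (b : ℝ) ^ k * (((b : ℝ) ^ l - 1) * √2) -
        (b : ℝ) ^ l * (⌊(b : ℝ) ^ k * √2⌋ : ℝ) =
        (b : ℝ) ^ l * ((b : ℝ) ^ k * √2 - ⌊(b : ℝ) ^ k * √2⌋) - (b : ℝ) ^ k * √2 := by ring
    rw [this, abs_le]
    constructor <;> nlinarith

lemma coeff_Fs_succ (b l k : ℕ) :
    ((coeff (k + 1) (Fs b l) : ℤ) : ℝ) = b * del b l k - del b l (k + 1) := by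
  rw [Fs, coeff_K_mul_succ]
  unfold del
  push_cast
  ring

lemma abs_coeff_Fs_le (b l k : ℕ) (hb : 2 ≤ b) :
    |((coeff k (Fs b l) : ℤ) : ℝ)| ≤ 4 * (b : ℝ) ^ (l + 1) := by
  have hb0 : (0 : ℝ) < (b : ℝ) ^ l := by positivity
  have hb2 : (2 : ℝ) ≤ b := by exact_mod_cast hb
  cases k with
  | zero =>
    have h1 : coeff 0 (Fs b l) = (b : ℤ) ^ l * (⌊√2⌋ - if l = 0 then ⌊√2⌋ else 0) := by
      rw [Fs, coeff_K_mul_zero, coeff_Gs]
      simp
    have h2 : ⌊√2⌋ = 1 := by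
      rw [Int.floor_eq_iff]
      have := one_lt_sqrt2
      have := sqrt2_lt_two
      constructor <;> push_cast <;> linarith
    rw [h1, h2]
    split_ifs
    · simp
    · push_cast
      rw [mul_one, abs_of_pos hb0, pow_succ]
      nlinarith
  | succ k =>
    rw [coeff_Fs_succ]
    have h1 := abs_del_le b l k hb
    have h2 := abs_del_le b l (k + 1) hb
    have h3 : |b * del b l k - del b l (k + 1)| ≤ b * |del b l k| + |del b l (k + 1)| := by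
      refine (abs_sub _ _).trans ?_
      rw [abs_mul, Nat.abs_cast]
    rw [pow_succ]
    nlinarith

/-- the coefficients of `T` in terms of `f` and `δ` -/
lemma coeff_Ts (b l R : ℕ) :
    ((coeff R (Ts b l) : ℤ) : ℝ) = ((b : ℝ) ^ l - 1) * √2 * del b l R +
      ∑ p ∈ antidiagonal R, ((coeff p.1 (Fs b l) : ℤ) : ℝ) * del b l p.2 := by
  have hG : Gs b l = Fs b l * E (b : ℤ) := by
    rw [Fs, mul_comm (K _), mul_assoc, K_mul_E, mul_one]
  have h1 : ((coeff R (Gs b l) : ℤ) : ℝ) =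
      ∑ p ∈ antidiagonal R, ((coeff p.1 (Fs b l) : ℤ) : ℝ) * (b : ℝ) ^ p.2 := by
    conv_lhs => rw [hG, coeff_mul]
    push_cast
    refine sum_congr rfl fun p _ => ?_
    rw [coeff_E]
    push_cast
    rfl
  have h2 : ((coeff R (Fs b l * Gs b l) : ℤ) : ℝ) =
      ∑ p ∈ antidiagonal R, ((coeff p.1 (Fs b l) : ℤ) : ℝ) *
        ((b : ℝ) ^ p.2 * (((b : ℝ) ^ l - 1) * √2) - del b l p.2) := by
    rw [coeff_mul]
    push_cast
    refine sum_congr rfl fun p _ => ?_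
    unfold del
    ring
  have h3 : ∑ p ∈ antidiagonal R, ((coeff p.1 (Fs b l) : ℤ) : ℝ) *
        ((b : ℝ) ^ p.2 * (((b : ℝ) ^ l - 1) * √2) - del b l p.2) =
      (((b : ℝ) ^ l - 1) * √2) * ((coeff R (Gs b l) : ℤ) : ℝ) -
      ∑ p ∈ antidiagonal R, ((coeff p.1 (Fs b l) : ℤ) : ℝ) * del b l p.2 := by
    rw [h1, mul_sum, ← sum_sub_distrib]
    refine sum_congr rfl fun p _ => ?_
    ring
  rw [Ts, map_sub, Int.cast_sub, h2, h3, coeff_C_mul, coeff_E]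
  have hs : √2 * √2 = 2 := Real.mul_self_sqrt (by norm_num)
  unfold del
  push_cast
  linear_combination (-(b : ℝ) ^ R * ((b : ℝ) ^ l - 1) ^ 2) * hs

lemma sum_antidiagonal_le (N : ℕ) (f g : ℕ → ℝ) (hf : ∀ i, 0 ≤ f i) (hg : ∀ i, 0 ≤ g i) :
    ∑ R ∈ range N, ∑ p ∈ antidiagonal R, f p.1 * g p.2 ≤
      (∑ i ∈ range N, f i) * ∑ j ∈ range N, g j := by
  rw [sum_mul_sum, ← sum_product', sum_sigma']
  refine le_trans (le_of_eq ?_) (sum_le_sum_of_subset_of_nonneg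
    (s := ((range N).sigma fun R => antidiagonal R).image (fun x => x.2)) ?_ ?_)
  · rw [sum_image]
    rintro ⟨R, p⟩ hx ⟨R', p'⟩ hy hxy
    simp only [coe_sigma, Set.mem_sigma_iff, mem_coe, mem_range,
      HasAntidiagonal.mem_antidiagonal] at hx hy
    simp only at hxy
    subst hxy
    obtain rfl : R = R' := hx.2.symm.trans hy.2
    rfl
  · intro p hp
    simp only [mem_image, mem_sigma, mem_range, HasAntidiagonal.mem_antidiagonal,
      Sigma.exists, mem_product] at hp ⊢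
    obtain ⟨R, q, ⟨hR, hq⟩, rfl⟩ := hp
    omega
  · intro p _ _
    exact mul_nonneg (hf _) (hg _)

lemma sum_abs_le (b l N : ℕ) (hb : 2 ≤ b) :
    ∑ k ∈ range N, |((coeff k (Fs b l) : ℤ) : ℝ)| ≤ 4 * (b : ℝ) ^ (l + 1) * sc (Fs b l) N := by
  unfold sc
  rw [← sum_filter_add_sum_filter_not _ (fun k => coeff k (Fs b l) ≠ 0)]
  have h2 : ∑ k ∈ range N with ¬ coeff k (Fs b l) ≠ 0, |((coeff k (Fs b l) : ℤ) : ℝ)| = 0 := by
    apply sum_eq_zero
    intro k hk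
    simp only [mem_filter, not_not] at hk
    rw [hk.2]; simp
  rw [h2, add_zero, mul_comm, ← nsmul_eq_mul]
  exact sum_le_card_nsmul _ _ _ fun k _ => abs_coeff_Fs_le b l k hb

lemma sum_del_le (b l N : ℕ) (hb : 2 ≤ b) :
    ∑ k ∈ range N, |del b l k| ≤ 2 * (b : ℝ) ^ l + 4 * (b : ℝ) ^ (l + 1) * sc (Fs b l) (N + 1) := by
  have hb2 : (2 : ℝ) ≤ b := by exact_mod_cast hb
  have h1 : ∀ k, (b : ℝ) * |del b l k| ≤ |del b l (k + 1)| + |((coeff (k + 1) (Fs b l) : ℤ) : ℝ)| := by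
    intro k
    have : (b : ℝ) * del b l k = del b l (k + 1) + ((coeff (k + 1) (Fs b l) : ℤ) : ℝ) := by
      rw [coeff_Fs_succ]; ring
    calc (b : ℝ) * |del b l k| = |(b : ℝ) * del b l k| := by rw [abs_mul, Nat.abs_cast]
      _ ≤ _ := by rw [this]; exact abs_add_le _ _
  have h2 : (b : ℝ) * ∑ k ∈ range N, |del b l k| ≤
      ∑ k ∈ range N, |del b l (k + 1)| + ∑ k ∈ range N, |((coeff (k + 1) (Fs b l) : ℤ) : ℝ)| := by
    rw [mul_sum, ← sum_add_distrib]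
    exact sum_le_sum fun k _ => h1 k
  have h3 : ∑ k ∈ range N, |del b l (k + 1)| ≤ ∑ k ∈ range N, |del b l k| + |del b l N| := by
    have e1 := sum_range_succ (fun k => |del b l k|) N
    have e2 := sum_range_succ' (fun k => |del b l k|) N
    have := abs_nonneg (del b l 0)
    linarith
  have h4 : ∑ k ∈ range N, |((coeff (k + 1) (Fs b l) : ℤ) : ℝ)| ≤
      ∑ k ∈ range (N + 1), |((coeff k (Fs b l) : ℤ) : ℝ)| := by
    rw [sum_range_succ']
    have := abs_nonneg ((coeff 0 (Fs b l) : ℤ) : ℝ)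
    linarith
  have h5 := abs_del_le b l N hb
  have h6 := sum_abs_le b l (N + 1) hb
  have h7 : 0 ≤ ∑ k ∈ range N, |del b l k| := sum_nonneg fun _ _ => abs_nonneg _
  nlinarith

lemma coeff_zero_Fs (b l : ℕ) (hl : 1 ≤ l) : coeff 0 (Fs b l) = (b : ℤ) ^ l := by
  have h2 : ⌊√2⌋ = 1 := by
    rw [Int.floor_eq_iff]
    have := one_lt_sqrt2
    have := sqrt2_lt_two
    constructor <;> push_cast <;> linarith
  rw [Fs, coeff_K_mul_zero, coeff_Gs, if_neg (by omega), pow_zero, one_mul, h2]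
  ring

/-- **The sparse relation.** -/
theorem sc_Ts (b l N : ℕ) (hb : 2 ≤ b) (hl : 1 ≤ l) :
    sc (Ts b l) N ≤ 36 * b ^ (2 * l + 2) * sc (Fs b l) (N + 1) ^ 2 := by
  have hb2 : (2 : ℝ) ≤ b := by exact_mod_cast hb
  have hM : 1 ≤ sc (Fs b l) (N + 1) := by
    unfold sc
    rw [Nat.one_le_iff_ne_zero, card_ne_zero]
    refine ⟨0, ?_⟩
    simp only [mem_filter, mem_range]
    refine ⟨by omega, ?_⟩
    rw [coeff_zero_Fs b l hl]
    positivity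
  have hMR : (1 : ℝ) ≤ sc (Fs b l) (N + 1) := by exact_mod_cast hM
  have hmono : (sc (Fs b l) N : ℝ) ≤ sc (Fs b l) (N + 1) := by
    exact_mod_cast sc_mono _ (Nat.le_succ N)
  have h1 : (sc (Ts b l) N : ℝ) ≤ ∑ R ∈ range N, |((coeff R (Ts b l) : ℤ) : ℝ)| := by
    have e1 : (sc (Ts b l) N : ℝ) = ∑ R ∈ range N with coeff R (Ts b l) ≠ 0, (1 : ℝ) := by
      unfold sc
      simp
    have e2 : ∑ R ∈ range N with coeff R (Ts b l) ≠ 0, (1 : ℝ) ≤
        ∑ R ∈ range N with coeff R (Ts b l) ≠ 0, |((coeff R (Ts b l) : ℤ) : ℝ)| := by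
      refine sum_le_sum fun k hk => ?_
      simp only [mem_filter] at hk
      rw [← Int.cast_abs]
      exact_mod_cast Int.one_le_abs hk.2
    rw [e1]
    exact e2.trans (sum_le_sum_of_subset_of_nonneg (filter_subset _ _) fun _ _ _ => abs_nonneg _)
  have h2 : ∑ R ∈ range N, |((coeff R (Ts b l) : ℤ) : ℝ)| ≤
      (((b : ℝ) ^ l - 1) * √2 + ∑ i ∈ range N, |((coeff i (Fs b l) : ℤ) : ℝ)|) *
        ∑ j ∈ range N, |del b l j| := by
    have h3 := sum_antidiagonal_le N (fun i => |((coeff i (Fs b l) : ℤ) : ℝ)|)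
      (fun j => |del b l j|) (fun _ => abs_nonneg _) (fun _ => abs_nonneg _)
    have h4 : ∀ R ∈ range N, |((coeff R (Ts b l) : ℤ) : ℝ)| ≤
        ((b : ℝ) ^ l - 1) * √2 * |del b l R| +
        ∑ p ∈ antidiagonal R, |((coeff p.1 (Fs b l) : ℤ) : ℝ)| * |del b l p.2| := by
      intro R _
      rw [coeff_Ts]
      have hnn : 0 ≤ ((b : ℝ) ^ l - 1) * √2 :=
        mul_nonneg (sub_nonneg.2 (one_le_pow₀ (by linarith))) (Real.sqrt_nonneg _)
      refine (abs_add_le _ _).trans (add_le_add ?_ ?_)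
      · rw [abs_mul, abs_of_nonneg hnn]
      · refine (abs_sum_le_sum_abs _ _).trans (sum_le_sum fun p _ => ?_)
        rw [abs_mul]
    refine (sum_le_sum h4).trans ?_
    rw [sum_add_distrib, ← mul_sum, add_mul]
    linarith
  have h5 := sum_abs_le b l N hb
  have h6 := sum_del_le b l N hb
  have h7 : ((b : ℝ) ^ l - 1) * √2 ≤ 2 * (b : ℝ) ^ l := by
    have := sqrt2_lt_two
    have : (1 : ℝ) ≤ (b : ℝ) ^ l := one_le_pow₀ (by linarith)
    have := Real.sqrt_nonneg 2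
    nlinarith
  set M : ℝ := (sc (Fs b l) (N + 1) : ℝ) with hMdef
  have hBl : (0 : ℝ) < (b : ℝ) ^ l := by positivity
  have hB : (b : ℝ) ^ (l + 1) = (b : ℝ) ^ l * b := pow_succ _ _
  have h8 : 2 * (b : ℝ) ^ l ≤ (b : ℝ) ^ (l + 1) * M := by
    rw [hB]
    nlinarith [mul_le_mul_of_nonneg_left hb2 hBl.le, mul_pos hBl (by linarith : (0:ℝ) < b)]
  have h9 : 4 * (b : ℝ) ^ (l + 1) * (sc (Fs b l) N : ℝ) ≤ 4 * (b : ℝ) ^ (l + 1) * M :=
    mul_le_mul_of_nonneg_left hmono (by positivity)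
  have h10 : ((b : ℝ) ^ l - 1) * √2 + ∑ i ∈ range N, |((coeff i (Fs b l) : ℤ) : ℝ)| ≤
      5 * ((b : ℝ) ^ (l + 1) * M) := by linarith
  have h11 : ∑ j ∈ range N, |del b l j| ≤ 5 * ((b : ℝ) ^ (l + 1) * M) := by linarith
  have h12 : (sc (Ts b l) N : ℝ) ≤ (5 * ((b : ℝ) ^ (l + 1) * M)) * (5 * ((b : ℝ) ^ (l + 1) * M)) := by
    refine h1.trans (h2.trans (mul_le_mul h10 h11 (sum_nonneg fun _ _ => abs_nonneg _) ?_))
    positivity
  have h13 : (sc (Ts b l) N : ℝ) ≤ ((36 * b ^ (2 * l + 2) * sc (Fs b l) (N + 1) ^ 2 : ℕ) : ℝ) := by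
    push_cast
    rw [← hMdef]
    refine h12.trans ?_
    have e : (b : ℝ) ^ (2 * l + 2) = (b : ℝ) ^ (l + 1) * (b : ℝ) ^ (l + 1) := by
      rw [← pow_add]; congr 1; ring
    rw [e]
    have : 0 ≤ ((b : ℝ) ^ (l + 1) * (b : ℝ) ^ (l + 1)) * M ^ 2 := by positivity
    nlinarith
  exact_mod_cast h13

end Pool.Agent.DigitChanges
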