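import Mathlib

/-!
# Sparse power series: counting nonzero coefficients, Frobenius
-/

open Finset PowerSeries

namespace Pool.Agent.DigitChanges

variable {R : Type*} [CommRing R] [DecidableEq R]

/-- Number of nonzero coefficients of index `< n`. -/
noncomputable def sc (f : PowerSeries R) (n : ℕ) : ℕ := #{k ∈ range n | coeff k f ≠ 0}

omit [DecidableEq R] in
lemma coeff_mul_ne_zero {f g : PowerSeries R} {k : ℕ} (h : coeff k (f * g) ≠ 0) :
    ∃ i j, i + j = k ∧ coeff i f ≠ 0 ∧ coeff j g ≠ 0 := by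
  rw [coeff_mul] at h
  obtain ⟨⟨i, j⟩, hij, hne⟩ := exists_ne_zero_of_sum_ne_zero h
  rw [HasAntidiagonal.mem_antidiagonal] at hij
  exact ⟨i, j, hij, left_ne_zero_of_mul hne, right_ne_zero_of_mul hne⟩

lemma sc_mono (f : PowerSeries R) {m n : ℕ} (h : m ≤ n) : sc f m ≤ sc f n := by
  unfold sc
  exact card_le_card (filter_subset_filter _ (range_subset_range.2 h))

lemma sc_le (f : PowerSeries R) (n : ℕ) : sc f n ≤ n := by
  unfold sc
  exact (card_filter_le _ _).trans (by simp)

lemma sc_add (f g : PowerSeries R) (n : ℕ) : sc (f + g) n ≤ sc f n + sc g n := by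
  unfold sc
  refine (card_le_card (t := {k ∈ range n | coeff k f ≠ 0} ∪ {k ∈ range n | coeff k g ≠ 0}) ?_).trans
    (card_union_le _ _)
  intro k hk
  simp only [mem_filter, mem_union, mem_range, map_add] at hk ⊢
  by_contra hcon
  push Not at hcon
  have h1 := hcon.1 hk.1
  have h2 := hcon.2 hk.1
  exact hk.2 (by rw [h1, h2, add_zero])

lemma sc_neg (f : PowerSeries R) (n : ℕ) : sc (-f) n = sc f n := by
  unfold sc
  simp

lemma sc_sub (f g : PowerSeries R) (n : ℕ) : sc (f - g) n ≤ sc f n + sc g n := by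
  rw [sub_eq_add_neg]
  exact (sc_add f (-g) n).trans (by rw [sc_neg])

lemma sc_mul (f g : PowerSeries R) (n : ℕ) : sc (f * g) n ≤ sc f n * sc g n := by
  unfold sc
  rw [← card_product]
  refine card_le_card_of_surjOn (fun p : ℕ × ℕ => p.1 + p.2) ?_
  intro k hk
  simp only [coe_filter, mem_range] at hk
  obtain ⟨hk, hne⟩ := hk
  obtain ⟨i, j, hij, hi, hj⟩ := coeff_mul_ne_zero hne
  refine ⟨(i, j), ?_, hij⟩
  simp only [coe_product, coe_filter, mem_range, Set.mem_prod]
  exact ⟨⟨by omega, hi⟩, ⟨by omega, hj⟩⟩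

lemma sc_C_mul (a : R) (f : PowerSeries R) (n : ℕ) : sc (C a * f) n ≤ sc f n := by
  unfold sc
  apply card_le_card
  intro k hk
  simp only [mem_filter, mem_range, coeff_C_mul] at hk ⊢
  exact ⟨hk.1, right_ne_zero_of_mul hk.2⟩

/-- the series `1 - b X` -/
noncomputable def K (b : R) : PowerSeries R := 1 - C b * X

/-- the series `∑ b^n X^n` -/
noncomputable def E (b : R) : PowerSeries R := PowerSeries.mk (fun n => b ^ n)

omit [DecidableEq R] in
lemma coeff_K_mul_zero (b : R) (f : PowerSeries R) : coeff 0 (K b * f) = coeff 0 f := by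
  simp [K, sub_mul, mul_assoc]

omit [DecidableEq R] in
lemma coeff_K_mul_succ (b : R) (f : PowerSeries R) (n : ℕ) :
    coeff (n + 1) (K b * f) = coeff (n + 1) f - b * coeff n f := by
  rw [K, sub_mul, one_mul, map_sub, mul_assoc, coeff_C_mul, coeff_succ_X_mul]

omit [DecidableEq R] in
lemma coeff_E (b : R) (n : ℕ) : coeff n (E b) = b ^ n := by simp [E]

omit [DecidableEq R] in
lemma K_mul_E (b : R) : K b * E b = 1 := by
  ext n
  cases n with
  | zero => rw [coeff_K_mul_zero, coeff_E]; simp
  | succ n => rw [coeff_K_mul_succ, coeff_E, coeff_E, coeff_one]; simp [pow_succ']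

lemma sc_K_mul (b : R) (f : PowerSeries R) (n : ℕ) : sc (K b * f) n ≤ 2 * sc f n := by
  have : K b * f = f - C b * (X * f) := by rw [K, sub_mul, one_mul, mul_assoc]
  rw [this, two_mul]
  refine (sc_sub _ _ _).trans (Nat.add_le_add_left ((sc_C_mul _ _ _).trans ?_) _)
  unfold sc
  refine card_le_card_of_surjOn (fun k => k + 1) ?_
  intro k hk
  simp only [coe_filter, mem_range] at hk
  obtain ⟨hk, hne⟩ := hk
  cases k with
  | zero => simp at hne
  | succ k =>
    rw [coeff_succ_X_mul] at hne
    refine ⟨k, ?_, rfl⟩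
    simp only [coe_filter, mem_range]
    exact ⟨by omega, hne⟩

/-- Frobenius for power series over `ZMod p`. -/
lemma expand_card (p : ℕ) [hp : Fact p.Prime] (f : PowerSeries (ZMod p)) :
    expand p hp.out.ne_zero f = f ^ p := by
  ext n
  have h1 : coeff n (f ^ p) = coeff n (((trunc (n + 1) f : Polynomial (ZMod p)) : PowerSeries (ZMod p)) ^ p) := by
    have := trunc_trunc_pow f (n + 1) p
    have h2 := congrArg (fun q : Polynomial (ZMod p) => q.coeff n) this
    simp only [coeff_trunc, Nat.lt_succ_self, if_true] at h2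
    exact h2.symm
  rw [h1, ← Polynomial.coe_pow, Polynomial.coeff_coe, ← ZMod.expand_card, coeff_expand,
    Polynomial.coeff_expand hp.out.pos]
  split_ifs with h
  · rw [coeff_trunc, if_pos]
    exact Nat.lt_succ_of_le (Nat.div_le_self _ _)
  · rfl

end Pool.Agent.DigitChanges
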