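import Pool.Agent.Lib.DigitChanges.Basic

/-!
# The 2-adic descent (odd bases)

`G` is an integer power series, `F = (1 - bX) G` with `b` odd, and `T = D E - F G` where
`D = 2^(2v+1) q^2` with `q` odd.  If `F` and `T` are both sparse, we get a contradiction.
-/

open Finset PowerSeries

namespace Pool.Agent.DigitChanges

/-- remainders mod `2^i` -/
noncomputable def Om (G : PowerSeries ℤ) (i : ℕ) : PowerSeries ℤ :=
  PowerSeries.mk (fun k => coeff k G % 2 ^ i)

/-- quotients by `2^i` -/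
noncomputable def Gm (G : PowerSeries ℤ) (i : ℕ) : PowerSeries ℤ :=
  PowerSeries.mk (fun k => coeff k G / 2 ^ i)

lemma coeff_Om (G : PowerSeries ℤ) (i k : ℕ) : coeff k (Om G i) = coeff k G % 2 ^ i := by
  simp [Om]

lemma coeff_Gm (G : PowerSeries ℤ) (i k : ℕ) : coeff k (Gm G i) = coeff k G / 2 ^ i := by
  simp [Gm]

lemma G_eq (G : PowerSeries ℤ) (i : ℕ) : G = Om G i + C (2 ^ i : ℤ) * Gm G i := by
  ext k
  rw [map_add, coeff_C_mul, coeff_Om, coeff_Gm]
  exact (Int.emod_add_mul_ediv _ _).symm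

/-- the auxiliary series -/
noncomputable def Ui (b : ℤ) (T F G : PowerSeries ℤ) (i : ℕ) : PowerSeries ℤ :=
  T + C 2 * (F * Om G i) - K b * Om G i ^ 2

lemma Ui_eq (b D : ℤ) (T F G : PowerSeries ℤ) (hF : F = K b * G) (hT : T = C D * E b - F * G)
    (i : ℕ) : Ui b T F G i = C D * E b - C (4 ^ i : ℤ) * (K b * Gm G i ^ 2) := by
  have h1 : C (2 ^ i : ℤ) * Gm G i = G - Om G i := by
    have := G_eq G i
    exact eq_sub_of_add_eq' this.symm
  have h2 : C (4 ^ i : ℤ) * (K b * Gm G i ^ 2) = K b * (C (2 ^ i : ℤ) * Gm G i) ^ 2 := by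
    rw [mul_pow, ← map_pow, ← pow_mul, mul_comm i 2, pow_mul]
    norm_num
    ring
  have h3 : (C 2 : PowerSeries ℤ) = 2 := by
    exact map_ofNat (C (R := ℤ)) 2
  rw [h2, h1, Ui, hT, hF, h3]
  ring

lemma coeff_two_mul_K_sq (b : ℤ) (H : PowerSeries ℤ) (k : ℕ) :
    ((coeff (2 * k) (K b * H ^ 2) : ℤ) : ZMod 2) = ((coeff k H : ℤ) : ZMod 2) := by
  have hsq : map (Int.castRingHom (ZMod 2)) (H ^ 2) =
      expand 2 two_ne_zero (map (Int.castRingHom (ZMod 2)) H) := by
    rw [map_pow]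
    exact (expand_card 2 _).symm
  have hc : ∀ n, ((coeff n (H ^ 2) : ℤ) : ZMod 2) =
      if 2 ∣ n then ((coeff (n / 2) H : ℤ) : ZMod 2) else 0 := by
    intro n
    have := congrArg (coeff n) hsq
    rw [coeff_map, coeff_expand] at this
    simpa using this
  cases k with
  | zero =>
    rw [Nat.mul_zero, coeff_K_mul_zero, hc]
    simp
  | succ k =>
    have e : 2 * (k + 1) = (2 * k + 1) + 1 := by ring
    rw [e, coeff_K_mul_succ, Int.cast_sub, Int.cast_mul, hc, hc, if_pos (by omega),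
      if_neg (by omega), mul_zero, sub_zero]
    congr 3
    omega

lemma coeff_two_mul_Ui_ne (b D q : ℤ) (v : ℕ) (hD : D = 2 ^ (2 * v + 1) * q ^ 2)
    (T F G : PowerSeries ℤ) (hF : F = K b * G) (hT : T = C D * E b - F * G)
    (i : ℕ) (hi : i ≤ v) (k : ℕ) (hk : ¬ (2 : ℤ) ∣ coeff k (Gm G i)) :
    coeff (2 * k) (Ui b T F G i) ≠ 0 := by
  rw [Ui_eq b D T F G hF hT, map_sub, coeff_C_mul, coeff_C_mul, coeff_E]
  intro h
  apply hk
  have hpar := coeff_two_mul_K_sq b (Gm G i) k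
  set c := coeff (2 * k) (K b * Gm G i ^ 2) with hc
  have h1 : (4 : ℤ) ^ i * (2 * (4 ^ (v - i) * q ^ 2 * b ^ (2 * k))) = 4 ^ i * c := by
    have : D = 4 ^ i * (2 * (4 ^ (v - i) * q ^ 2)) := by
      rw [hD]
      have : (2 : ℤ) ^ (2 * v + 1) = 4 ^ i * (2 * 4 ^ (v - i)) := by
        have e : (4 : ℤ) ^ i * (2 * 4 ^ (v - i)) = 2 * 4 ^ (i + (v - i)) := by
          rw [pow_add]; ring
        rw [e, Nat.add_sub_cancel' hi, pow_succ, pow_mul]
        norm_num [mul_comm]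
      rw [this]; ring
    rw [this] at h
    linarith
  have h2 : c = 2 * (4 ^ (v - i) * q ^ 2 * b ^ (2 * k)) :=
    (mul_left_cancel₀ (by positivity) h1).symm
  have h3 : ((c : ℤ) : ZMod 2) = 0 := by
    rw [ZMod.intCast_zmod_eq_zero_iff_dvd]
    exact ⟨_, h2⟩
  rw [h3] at hpar
  exact (ZMod.intCast_zmod_eq_zero_iff_dvd _ 2).1 hpar.symm

lemma coeff_Ui_last_ne (b D q : ℤ) (v : ℕ) (hb : Odd b) (hq : Odd q)
    (hD : D = 2 ^ (2 * v + 1) * q ^ 2)
    (T F G : PowerSeries ℤ) (hF : F = K b * G) (hT : T = C D * E b - F * G) (R : ℕ) :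
    coeff R (Ui b T F G (v + 1)) ≠ 0 := by
  rw [Ui_eq b D T F G hF hT, map_sub, coeff_C_mul, coeff_C_mul, coeff_E]
  intro h
  set c := coeff R (K b * Gm G (v + 1) ^ 2) with hc
  have e : (4 : ℤ) ^ (v + 1) = 2 ^ (2 * v + 1) * 2 := by
    rw [← pow_succ, show 2 * v + 1 + 1 = 2 * (v + 1) by ring, pow_mul]
    norm_num
  have h1 : (2 : ℤ) ^ (2 * v + 1) * (q ^ 2 * b ^ R - 2 * c) = 0 := by
    rw [hD, e] at h
    linarith
  have h2 : q ^ 2 * b ^ R - 2 * c = 0 := by
    rcases mul_eq_zero.1 h1 with h | h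
    · exact absurd h (by positivity)
    · exact h
  have h3 : Odd (q ^ 2 * b ^ R) := (hq.pow).mul (hb.pow)
  have h4 : Even (q ^ 2 * b ^ R) := by
    rw [sub_eq_zero.1 h2]
    exact even_two_mul c
  exact (Int.not_even_iff_odd.2 h3) h4

lemma Om_step (b : ℤ) (hb : Odd b) (F G : PowerSeries ℤ) (hF : F = K b * G) (i k : ℕ)
    (h : coeff (k + 1) F = 0) : coeff (k + 1) (Om G i) ≠ 0 ↔ coeff k (Om G i) ≠ 0 := by
  have h1 : coeff (k + 1) G = b * coeff k G := by
    rw [hF, coeff_K_mul_succ] at h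
    linarith
  rw [coeff_Om, coeff_Om, h1, not_iff_not, ← Int.dvd_iff_emod_eq_zero,
    ← Int.dvd_iff_emod_eq_zero]
  constructor
  · intro h2
    have hco : IsCoprime ((2 : ℤ) ^ i) b := by
      apply IsCoprime.pow_left
      rw [Int.isCoprime_iff_gcd_eq_one]
      rcases hb with ⟨m, rfl⟩
      have : IsCoprime (2 : ℤ) (2 * m + 1) := ⟨-m, 1, by ring⟩
      exact Int.isCoprime_iff_gcd_eq_one.1 this
    exact hco.dvd_of_dvd_mul_left h2
  · intro h2
    exact Dvd.dvd.mul_left h2 b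

/-- if the support of `O` is a union of intervals whose end points are in the support of `F`,
then `O^2` has small support. -/
lemma sc_sq (F O : PowerSeries ℤ) (h0 : coeff 0 F ≠ 0)
    (hstep : ∀ k, coeff (k + 1) F = 0 → (coeff (k + 1) O ≠ 0 ↔ coeff k O ≠ 0)) (n : ℕ) :
    sc (O ^ 2) n ≤ 2 * (sc F (n + 1) * sc O n) := by
  have key : ∀ R, coeff R (O ^ 2) ≠ 0 → (∃ s a, s + a = R ∧ coeff s F ≠ 0 ∧ coeff a O ≠ 0) ∨
      (∃ s a, s + a = R + 1 ∧ a ≤ R ∧ coeff s F ≠ 0 ∧ coeff a O ≠ 0) := by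
    intro R hR
    rw [sq] at hR
    obtain ⟨i, j, hij, hi, hj⟩ := coeff_mul_ne_zero hR
    have hex : ∃ a, a ≤ R ∧ coeff a O ≠ 0 ∧ coeff (R - a) O ≠ 0 :=
      ⟨i, by omega, hi, by rw [show R - i = j by omega]; exact hj⟩
    classical
    obtain ⟨ha1, ha2, ha3⟩ := Nat.find_spec hex
    have hmin := fun m (hm : m < Nat.find hex) => Nat.find_min hex hm
    set a := Nat.find hex with ha
    rcases Nat.eq_zero_or_pos a with h | h
    · left
      exact ⟨0, R, by omega, h0, by simpa [h] using ha3⟩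
    · by_cases h1 : coeff (a - 1) O = 0
      · left
        refine ⟨a, R - a, by omega, ?_, ha3⟩
        intro hFa
        have := (hstep (a - 1) (by rwa [Nat.sub_add_cancel h])).1 (by rwa [Nat.sub_add_cancel h])
        exact this h1
      · right
        refine ⟨R - a + 1, a, by omega, ha1, ?_, ha2⟩
        intro hFa
        have h2 := (hstep (R - a) hFa).2 ha3
        apply hmin (a - 1) (by omega)
        refine ⟨by omega, h1, ?_⟩
        rwa [show R - (a - 1) = R - a + 1 by omega]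
  have hsub : ({R ∈ range n | coeff R (O ^ 2) ≠ 0} : Finset ℕ) ⊆
      (({s ∈ range (n + 1) | coeff s F ≠ 0} ×ˢ {a ∈ range n | coeff a O ≠ 0}).image
        (fun p => p.1 + p.2)) ∪
      (({s ∈ range (n + 1) | coeff s F ≠ 0} ×ˢ {a ∈ range n | coeff a O ≠ 0}).image
        (fun p => p.1 + p.2 - 1)) := by
    intro R hR
    simp only [mem_filter, mem_range] at hR
    simp only [mem_union, mem_image, mem_product, mem_filter, mem_range, Prod.exists]
    rcases key R hR.2 with ⟨s, a, h1, h2, h3⟩ | ⟨s, a, h1, h1', h2, h3⟩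
    · left
      exact ⟨s, a, ⟨⟨by omega, h2⟩, by omega, h3⟩, h1⟩
    · right
      exact ⟨s, a, ⟨⟨by omega, h2⟩, by omega, h3⟩, by omega⟩
  unfold sc
  refine (card_le_card hsub).trans ((card_union_le _ _).trans ?_)
  rw [two_mul]
  refine add_le_add ?_ ?_ <;>
  · refine card_image_le.trans ?_
    rw [card_product]

lemma sc_Ui (b : ℤ) (hb : Odd b) (T F G : PowerSeries ℤ) (h0 : coeff 0 F ≠ 0)
    (hF : F = K b * G) (i n : ℕ) :
    sc (Ui b T F G i) n ≤ sc T n + 5 * (sc F (n + 1) * sc (Om G i) n) := by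
  have h1 : sc (C 2 * (F * Om G i)) n ≤ sc F (n + 1) * sc (Om G i) n :=
    (sc_C_mul _ _ _).trans ((sc_mul _ _ _).trans
      (Nat.mul_le_mul_right _ (sc_mono _ (Nat.le_succ n))))
  have h2 : sc (K b * Om G i ^ 2) n ≤ 2 * (2 * (sc F (n + 1) * sc (Om G i) n)) :=
    (sc_K_mul _ _ _).trans (Nat.mul_le_mul_left _
      (sc_sq F _ h0 (fun k hk => Om_step b hb F G hF i k hk) n))
  have h3 := sc_sub (T + C 2 * (F * Om G i)) (K b * Om G i ^ 2) n
  have h4 := sc_add T (C 2 * (F * Om G i)) n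
  unfold Ui
  omega

lemma sc_Om_succ (b D q : ℤ) (v : ℕ) (hD : D = 2 ^ (2 * v + 1) * q ^ 2)
    (T F G : PowerSeries ℤ) (hF : F = K b * G) (hT : T = C D * E b - F * G)
    (i : ℕ) (hi : i ≤ v) (n : ℕ) :
    sc (Om G (i + 1)) n ≤ sc (Om G i) n + sc (Ui b T F G i) (2 * n) := by
  have hsub : ({k ∈ range n | coeff k (Om G (i + 1)) ≠ 0} : Finset ℕ) ⊆
      {k ∈ range n | coeff k (Om G i) ≠ 0} ∪
      {k ∈ range n | coeff (2 * k) (Ui b T F G i) ≠ 0} := by
    intro k hk
    simp only [mem_filter, mem_range, mem_union] at hk ⊢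
    by_cases h : coeff k (Om G i) = 0
    · right
      refine ⟨hk.1, coeff_two_mul_Ui_ne b D q v hD T F G hF hT i hi k ?_⟩
      intro hdvd
      apply hk.2
      rw [coeff_Om, ← Int.dvd_iff_emod_eq_zero] at h ⊢
      rw [coeff_Gm] at hdvd
      obtain ⟨c, hc⟩ := h
      rw [hc, Int.mul_ediv_cancel_left _ (by positivity)] at hdvd
      obtain ⟨d, hd⟩ := hdvd
      exact ⟨d, by rw [hc, hd]; ring⟩
    · left
      exact ⟨hk.1, h⟩
  refine (card_le_card hsub).trans ((card_union_le _ _).trans (Nat.add_le_add_left ?_ _))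
  unfold sc
  refine card_le_card_of_injOn (fun k => 2 * k) ?_ ?_
  · intro k hk
    simp only [coe_filter, mem_range] at hk ⊢
    obtain ⟨hk1, hk2⟩ := hk
    exact ⟨by omega, hk2⟩
  · intro x _ y _ hxy
    simp only at hxy
    omega

lemma sc_Om_zero (G : PowerSeries ℤ) (n : ℕ) : sc (Om G 0) n = 0 := by
  unfold sc
  rw [card_eq_zero, filter_eq_empty_iff]
  intro k _
  simp [coeff_Om]

/-- Bound for the number of indices `< n` with `2^(i+1) ∤ G_k`. -/
lemma sc_Om_bound (b D q : ℤ) (v : ℕ) (hb : Odd b) (hD : D = 2 ^ (2 * v + 1) * q ^ 2)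
    (T F G : PowerSeries ℤ) (h0 : coeff 0 F ≠ 0) (hF : F = K b * G)
    (hT : T = C D * E b - F * G) (i : ℕ) (hi : i ≤ v) :
    ∀ n N : ℕ, 2 ^ (i + 1) * n ≤ N →
      sc (Om G (i + 1)) n ≤ sc T N * (7 * sc F (N + 1)) ^ i := by
  have hM : ∀ N, 1 ≤ sc F (N + 1) := by
    intro N
    unfold sc
    rw [Nat.one_le_iff_ne_zero, card_ne_zero]
    exact ⟨0, by simp only [mem_filter, mem_range]; exact ⟨by omega, h0⟩⟩
  induction i with
  | zero =>
    intro n N hN
    have h1 := sc_Om_succ b D q v hD T F G hF hT 0 (Nat.zero_le _) n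
    have h2 := sc_Ui b hb T F G h0 hF 0 (2 * n)
    rw [sc_Om_zero] at h1 h2
    have h3 := sc_mono T (show 2 * n ≤ N by simpa using hN)
    simp only [pow_zero, mul_one, mul_zero, add_zero, zero_add] at *
    omega
  | succ i ih =>
    intro n N hN
    have h1 := sc_Om_succ b D q v hD T F G hF hT (i + 1) hi n
    have h2 := sc_Ui b hb T F G h0 hF (i + 1) (2 * n)
    have hN2 : 2 * n ≤ N := by
      refine le_trans ?_ hN
      refine Nat.mul_le_mul_right _ ?_
      calc 2 = 2 ^ 1 := rfl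
        _ ≤ 2 ^ (i + 1 + 1) := Nat.pow_le_pow_right (by norm_num) (by omega)
    have h3 := ih (by omega) n N (le_trans (Nat.mul_le_mul_right _
      (Nat.pow_le_pow_right (by norm_num) (by omega))) hN)
    have h4 := ih (by omega) (2 * n) N (by rw [← mul_assoc, ← pow_succ]; exact hN)
    have h5 : sc T (2 * n) ≤ sc T N := sc_mono T hN2
    have h6 : sc F (2 * n + 1) ≤ sc F (N + 1) := sc_mono F (by omega)
    have h7 := hM N
    set M := sc F (N + 1)
    set t := sc T N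
    set X := t * (7 * M) ^ i with hX
    have h8 : t ≤ X := Nat.le_mul_of_pos_right _ (by positivity)
    have h9 : sc F (2 * n + 1) * sc (Om G (i + 1)) (2 * n) ≤ M * X := Nat.mul_le_mul h6 h4
    have h10 : t * (7 * M) ^ (i + 1) = 7 * (M * X) := by rw [pow_succ, hX]; ring
    have h11 : X ≤ M * X := Nat.le_mul_of_pos_left _ h7
    rw [h10]
    omega

/-- **Main lemma (2-adic descent)**. -/
theorem descent (b D q : ℤ) (v : ℕ) (hb : Odd b) (hq : Odd q) (hD : D = 2 ^ (2 * v + 1) * q ^ 2)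
    (T F G : PowerSeries ℤ) (h0 : coeff 0 F ≠ 0) (hF : F = K b * G)
    (hT : T = C D * E b - F * G) (n N : ℕ) (hN : 2 ^ (v + 1) * n ≤ N) :
    n ≤ sc T N * (7 * sc F (N + 1)) ^ (v + 1) := by
  have hM : 1 ≤ sc F (N + 1) := by
    unfold sc
    rw [Nat.one_le_iff_ne_zero, card_ne_zero]
    exact ⟨0, by simp only [mem_filter, mem_range]; exact ⟨by omega, h0⟩⟩
  have h1 := sc_Om_bound b D q v hb hD T F G h0 hF hT v le_rfl n N hN
  have h2 := sc_Ui b hb T F G h0 hF (v + 1) n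
  have h3 : sc (Ui b T F G (v + 1)) n = n := by
    unfold sc
    rw [filter_true_of_mem, card_range]
    intro R _
    exact coeff_Ui_last_ne b D q v hb hq hD T F G hF hT R
  have hn : n ≤ N := le_trans (Nat.le_mul_of_pos_left _ (by positivity)) hN
  have h5 : sc T n ≤ sc T N := sc_mono T hn
  have h6 : sc F (n + 1) ≤ sc F (N + 1) := sc_mono F (by omega)
  set M := sc F (N + 1)
  set t := sc T N
  set X := t * (7 * M) ^ v with hX
  have h8 : t ≤ X := Nat.le_mul_of_pos_right _ (by positivity)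
  have h9 : sc F (n + 1) * sc (Om G (v + 1)) n ≤ M * X := Nat.mul_le_mul h6 h1
  have h10 : t * (7 * M) ^ (v + 1) = 7 * (M * X) := by rw [pow_succ, hX]; ring
  have h11 : X ≤ M * X := Nat.le_mul_of_pos_left _ hM
  rw [h10]
  omega

end Pool.Agent.DigitChanges
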