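import Pool.Agent.Lib.DigitChanges.Digits
import Pool.Agent.Lib.DigitChanges.TwoAdic

/-!
# Digit changes of `√2` in odd bases
-/

open Finset PowerSeries

namespace Pool.Agent.DigitChanges

lemma two_mul_sq_eq (b l : ℕ) (hb : 3 ≤ b) (hl : 1 ≤ l) :
    ∃ q : ℤ, Odd q ∧ 2 * ((b : ℤ) ^ l - 1) ^ 2 =
      2 ^ (2 * padicValNat 2 (b ^ l - 1) + 1) * q ^ 2 := by
  have hbl : 3 ≤ b ^ l := le_trans hb (Nat.le_self_pow (by omega) b)
  set m := b ^ l - 1 with hm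
  have hm0 : m ≠ 0 := by omega
  have hdvd : 2 ^ padicValNat 2 m ∣ m := pow_padicValNat_dvd
  obtain ⟨q, hq⟩ := hdvd
  refine ⟨q, ?_, ?_⟩
  · rw [Int.odd_coe_nat, ← Nat.not_even_iff_odd, even_iff_two_dvd]
    rintro ⟨c, hc⟩
    have := pow_succ_padicValNat_not_dvd (p := 2) hm0
    apply this
    refine ⟨c, ?_⟩
    rw [pow_succ, mul_assoc, ← hc]
    exact hq
  · have h1 : ((b : ℤ) ^ l - 1) = (m : ℤ) := by
      rw [hm, Nat.cast_sub (by omega)]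
      push_cast
      ring
    rw [h1]
    have h2 : (m : ℤ) = 2 ^ padicValNat 2 m * q := by exact_mod_cast hq
    set v := padicValNat 2 m
    rw [h2]
    ring

theorem odd_base (b l : ℕ) (hb : 3 ≤ b) (hodd : Odd b) (hl : 1 ≤ l) :
    ∃ c : ℝ, 0 < c ∧ ∃ N₀ : ℕ, ∀ N ≥ N₀,
      c * (N : ℝ) ^ ((1 : ℝ) / (padicValNat 2 (b ^ l - 1) + 3)) ≤ cnt b l N := by
  set v := padicValNat 2 (b ^ l - 1) with hv
  obtain ⟨q, hq, hD⟩ := two_mul_sq_eq b l hb hl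
  rw [← hv] at hD
  -- the polynomial bound
  have key : ∀ N : ℕ, (N : ℝ) ≤
      (2 ^ (v + 1) * (36 * b ^ (2 * l + 2) * 7 ^ (v + 1) + 1) : ℕ) *
        ((l + 1 + cnt b l N : ℕ) : ℝ) ^ (v + 3) := by
    intro N
    have h1 := descent (b : ℤ) (2 * ((b : ℤ) ^ l - 1) ^ 2) q v (by exact_mod_cast hodd) hq hD
      (Ts b l) (Fs b l) (Gs b l) (by rw [coeff_zero_Fs b l hl]; positivity) rfl rfl
      (N / 2 ^ (v + 1)) N (Nat.mul_div_le _ _)
    have h2 := sc_Ts b l N (by omega) hl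
    have h3 := sc_Fs_le_cnt b l N (by omega)
    set M := l + 1 + cnt b l N with hM
    set S := sc (Fs b l) (N + 1) with hS
    have h4 : sc (Ts b l) N * (7 * S) ^ (v + 1) ≤
        36 * b ^ (2 * l + 2) * 7 ^ (v + 1) * M ^ (v + 3) := by
      calc sc (Ts b l) N * (7 * S) ^ (v + 1)
          ≤ (36 * b ^ (2 * l + 2) * M ^ 2) * (7 * M) ^ (v + 1) := by
            refine Nat.mul_le_mul (h2.trans (Nat.mul_le_mul_left _ (Nat.pow_le_pow_left h3 2)))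
              (Nat.pow_le_pow_left (Nat.mul_le_mul_left _ h3) _)
        _ = 36 * b ^ (2 * l + 2) * 7 ^ (v + 1) * M ^ (v + 3) := by
            rw [mul_pow]; ring
    have h5 : N < 2 ^ (v + 1) * (N / 2 ^ (v + 1) + 1) := by
      have := Nat.lt_mul_div_succ N (show 0 < 2 ^ (v + 1) by positivity)
      simpa using this
    have hM1 : 1 ≤ M ^ (v + 3) := Nat.one_le_pow _ _ (by omega)
    have h6 : N ≤ 2 ^ (v + 1) * (36 * b ^ (2 * l + 2) * 7 ^ (v + 1) + 1) * M ^ (v + 3) := by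
      calc N ≤ 2 ^ (v + 1) * (N / 2 ^ (v + 1) + 1) := h5.le
        _ ≤ 2 ^ (v + 1) * (36 * b ^ (2 * l + 2) * 7 ^ (v + 1) * M ^ (v + 3) + M ^ (v + 3)) :=
            Nat.mul_le_mul_left _ (Nat.add_le_add (h1.trans h4) hM1)
        _ = _ := by ring
    exact_mod_cast h6
  set A : ℕ := 2 ^ (v + 1) * (36 * b ^ (2 * l + 2) * 7 ^ (v + 1) + 1) with hA
  have hA0 : 0 < (A : ℝ) := by
    rw [hA]; positivity
  set e : ℝ := (1 : ℝ) / ((v : ℝ) + 3) with he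
  have he0 : 0 < e := by positivity
  have hev : ((v + 3 : ℕ) : ℝ) * e = 1 := by
    rw [he]; push_cast; field_simp
  -- `N^e ≤ A^e (l + 1 + cnt)`
  have key2 : ∀ N : ℕ, (N : ℝ) ^ e ≤ (A : ℝ) ^ e * (l + 1 + cnt b l N) := by
    intro N
    have h1 := Real.rpow_le_rpow (by positivity) (key N) he0.le
    rw [Real.mul_rpow (by positivity) (by positivity), ← Real.rpow_natCast, ← Real.rpow_mul
      (by positivity), hev, Real.rpow_one] at h1
    push_cast at h1 ⊢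
    exact h1
  -- choose N₀
  have hAe : 0 < (A : ℝ) ^ e := Real.rpow_pos_of_pos hA0 e
  obtain ⟨N₀, hN₀⟩ : ∃ N₀ : ℕ, ∀ N ≥ N₀, 2 * (A : ℝ) ^ e * (l + 1) ≤ (N : ℝ) ^ e := by
    have ht : Filter.Tendsto (fun N : ℕ => (N : ℝ) ^ e) Filter.atTop Filter.atTop :=
      (tendsto_rpow_atTop he0).comp tendsto_natCast_atTop_atTop
    exact Filter.eventually_atTop.1 (ht.eventually_ge_atTop _)
  refine ⟨1 / (2 * (A : ℝ) ^ e), by positivity, N₀, fun N hN => ?_⟩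
  have h1 := key2 N
  have h2 := hN₀ N hN
  have h3 : (N : ℝ) ^ e ≤ 2 * (A : ℝ) ^ e * cnt b l N := by
    nlinarith
  have h4 : 1 / (2 * (A : ℝ) ^ e) * (N : ℝ) ^ e = (N : ℝ) ^ e / (2 * (A : ℝ) ^ e) := by ring
  rw [h4, div_le_iff₀ (by positivity)]
  linarith

end Pool.Agent.DigitChanges
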